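import Mathlib

/-!
# Runs of primes: counting `n ≤ N` with `d₁ ∣ n`, `d₂ ∣ n + h` and products of local conditions
-/

set_option autoImplicit false

namespace Pool.Agent.Lib_helper5.RUN

open Finset

/-- `1` if `p` divides `n (n + h)`, else `0` -/
noncomputable def xx (h n p : ℕ) : ℝ := if p ∣ n * (n + h) then 1 else 0

/-- the number of roots of `n (n + h)` modulo `p`, divided by `p` -/
noncomputable def gg (h p : ℕ) : ℝ := if p ∣ h then 1 / (p : ℝ) else 2 / (p : ℝ)

/-- the weighted count -/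
noncomputable def AA (N h d1 d2 : ℕ) (T : Finset ℕ) : ℝ :=
  ∑ n ∈ Ioc 0 N, if d1 ∣ n ∧ d2 ∣ n + h then ∏ p ∈ T, xx h n p else 0

theorem count_mod {N r : ℕ} (hr : 0 < r) (v : ℕ) :
    |((((Ioc 0 N).filter (fun n => n ≡ v [MOD r])).card : ℕ) : ℝ) - N / r| ≤ 1 := by
  have h := Nat.Ioc_filter_modEq_card 0 N hr v
  have hrq : (0 : ℚ) < r := by exact_mod_cast hr
  have h2 : ⌊(((0 : ℕ) : ℚ) - v) / r⌋ ≤ ⌊((N : ℚ) - v) / r⌋ := by
    apply Int.floor_le_floor
    gcongr
    simp
  rw [max_eq_left (sub_nonneg.2 h2)] at h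
  have hc : ((((Ioc 0 N).filter (fun n => n ≡ v [MOD r])).card : ℕ) : ℚ) =
      (⌊((N : ℚ) - v) / r⌋ : ℚ) - (⌊(((0 : ℕ) : ℚ) - v) / r⌋ : ℚ) := by
    exact_mod_cast h
  have f1 := Int.floor_le (((N : ℚ) - v) / r)
  have f2 := Int.lt_floor_add_one (((N : ℚ) - v) / r)
  have f3 := Int.floor_le ((((0 : ℕ) : ℚ) - v) / r)
  have f4 := Int.lt_floor_add_one ((((0 : ℕ) : ℚ) - v) / r)
  have e : ((N : ℚ) - v) / r - (((0 : ℕ) : ℚ) - v) / r = N / r := by
    push_cast
    ring
  have hq : |((((Ioc 0 N).filter (fun n => n ≡ v [MOD r])).card : ℕ) : ℚ) - N / r| ≤ 1 := by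
    rw [hc, abs_le]
    constructor <;> linarith
  have hq2 := (Rat.cast_le (K := ℝ)).2 hq
  push_cast at hq2
  exact hq2

theorem AA_empty {N h d1 d2 : ℕ} (h1 : 0 < d1) (h2 : 0 < d2) (co : Nat.Coprime d1 d2) :
    |AA N h d1 d2 ∅ - N / ((d1 : ℝ) * d2)| ≤ 1 := by
  obtain ⟨r, hr1, hr2⟩ := Nat.chineseRemainder co 0 ((d2 - 1) * h)
  have key : ∀ n, (d1 ∣ n ∧ d2 ∣ n + h) ↔ n ≡ r [MOD d1 * d2] := by
    intro n
    rw [← Nat.modEq_and_modEq_iff_modEq_mul co]
    have e1 : d1 ∣ n ↔ n ≡ r [MOD d1] := by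
      rw [← Nat.modEq_zero_iff_dvd]
      exact ⟨fun h => h.trans hr1.symm, fun h => h.trans hr1⟩
    have e2 : d2 ∣ n + h ↔ n ≡ r [MOD d2] := by
      have e3 : (d2 - 1) * h + h = d2 * h := by
        obtain ⟨k, rfl⟩ : ∃ k, d2 = k + 1 := ⟨d2 - 1, by omega⟩
        rw [Nat.add_sub_cancel]
        ring
      have e4 : r + h ≡ 0 [MOD d2] := by
        have := hr2.add_right h
        rw [e3] at this
        exact this.trans (Nat.modEq_zero_iff_dvd.2 (Dvd.intro _ rfl))
      rw [← Nat.modEq_zero_iff_dvd]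
      constructor
      · intro h5
        exact Nat.ModEq.add_right_cancel' h (h5.trans e4.symm)
      · intro h5
        exact (h5.add_right h).trans e4
    rw [e1, e2]
  have e : AA N h d1 d2 ∅ = (((Ioc 0 N).filter (fun n => n ≡ r [MOD d1 * d2])).card : ℝ) := by
    unfold AA
    rw [← sum_boole]
    refine sum_congr rfl (fun n _ => ?_)
    by_cases hn : n ≡ r [MOD d1 * d2]
    · rw [if_pos hn, if_pos ((key n).2 hn), prod_empty]
    · rw [if_neg hn, if_neg (fun h => hn ((key n).1 h))]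
  rw [e]
  have := count_mod (N := N) (Nat.mul_pos h1 h2) r
  push_cast at this ⊢
  exact this

theorem AA_bound {N h : ℕ} (T : Finset ℕ) : (∀ p ∈ T, p.Prime) →
    ∀ d1 d2 : ℕ, 0 < d1 → 0 < d2 → Nat.Coprime d1 d2 →
    (∀ p ∈ T, Nat.Coprime p d1 ∧ Nat.Coprime p d2) →
    |AA N h d1 d2 T - N / ((d1 : ℝ) * d2) * ∏ p ∈ T, gg h p| ≤ 2 ^ T.card := by
  induction T using Finset.induction_on with
  | empty =>
    intro _ d1 d2 h1 h2 co _
    simpa using AA_empty h1 h2 co
  | insert p T hp ih =>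
    intro hT d1 d2 h1 h2 co hc
    have hpp := hT p (mem_insert_self _ _)
    have hp0 : (0 : ℝ) < p := by exact_mod_cast hpp.pos
    have hd1 : (0 : ℝ) < d1 := by exact_mod_cast h1
    have hd2 : (0 : ℝ) < d2 := by exact_mod_cast h2
    have ih' := ih (fun q hq => hT q (mem_insert_of_mem hq))
    have hcT : ∀ q ∈ T, Nat.Coprime q d1 ∧ Nat.Coprime q d2 :=
      fun q hq => hc q (mem_insert_of_mem hq)
    have hpq : ∀ q ∈ T, Nat.Coprime q p := fun q hq =>
      (Nat.coprime_primes (hT q (mem_insert_of_mem hq)) hpp).2 (ne_of_mem_of_not_mem hq hp)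
    have hp1 := (hc p (mem_insert_self _ _)).1
    have hp2 := (hc p (mem_insert_self _ _)).2
    have b1 := ih' (p * d1) d2 (Nat.mul_pos hpp.pos h1) h2 (Nat.Coprime.mul_left hp2 co)
      (fun q hq => ⟨Nat.Coprime.mul_right (hpq q hq) (hcT q hq).1, (hcT q hq).2⟩)
    have b2 := ih' d1 (p * d2) h1 (Nat.mul_pos hpp.pos h2) (Nat.Coprime.mul_right hp1.symm co)
      (fun q hq => ⟨(hcT q hq).1, Nat.Coprime.mul_right (hpq q hq) (hcT q hq).2⟩)
    have m1 : ∀ n, p * d1 ∣ n ↔ p ∣ n ∧ d1 ∣ n := fun n =>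
      ⟨fun h => ⟨(Dvd.intro _ rfl).trans h, (Dvd.intro_left _ rfl).trans h⟩,
        fun h => hp1.mul_dvd_of_dvd_of_dvd h.1 h.2⟩
    have m2 : ∀ n, p * d2 ∣ n ↔ p ∣ n ∧ d2 ∣ n := fun n =>
      ⟨fun h => ⟨(Dvd.intro _ rfl).trans h, (Dvd.intro_left _ rfl).trans h⟩,
        fun h => hp2.mul_dvd_of_dvd_of_dvd h.1 h.2⟩
    rw [prod_insert hp, card_insert_of_notMem hp, pow_succ]
    by_cases hph : p ∣ h
    · have e : AA N h d1 d2 (insert p T) = AA N h (p * d1) d2 T := by
        unfold AA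
        refine sum_congr rfl (fun n _ => ?_)
        rw [prod_insert hp]
        have hx : p ∣ n * (n + h) ↔ p ∣ n := by
          rw [hpp.dvd_mul, (Nat.dvd_add_left hph)]
          exact or_self_iff
        by_cases hn : p ∣ n
        · have : xx h n p = 1 := by
            unfold xx
            rw [if_pos (hx.2 hn)]
          rw [this, one_mul]
          by_cases hd : d1 ∣ n ∧ d2 ∣ n + h
          · rw [if_pos hd, if_pos ⟨(m1 n).2 ⟨hn, hd.1⟩, hd.2⟩]
          · rw [if_neg hd, if_neg (fun h' => hd ⟨((m1 n).1 h'.1).2, h'.2⟩)]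
        · have : xx h n p = 0 := by
            unfold xx
            rw [if_neg (fun h' => hn (hx.1 h'))]
          rw [this, zero_mul, ite_self, if_neg (fun h' => hn ((m1 n).1 h'.1).1)]
      have hg : gg h p = 1 / (p : ℝ) := by
        unfold gg
        rw [if_pos hph]
      have e2 : (N : ℝ) / ((d1 : ℝ) * d2) * (gg h p * ∏ q ∈ T, gg h q) =
          N / (((p * d1 : ℕ) : ℝ) * d2) * ∏ q ∈ T, gg h q := by
        rw [hg]
        push_cast
        field_simp
      rw [e, e2]
      have : (0 : ℝ) ≤ 2 ^ T.card := by positivity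
      linarith
    · have e : AA N h d1 d2 (insert p T) = AA N h (p * d1) d2 T + AA N h d1 (p * d2) T := by
        unfold AA
        rw [← sum_add_distrib]
        refine sum_congr rfl (fun n _ => ?_)
        rw [prod_insert hp]
        by_cases hn : p ∣ n
        · have hn' : ¬ p ∣ n + h := fun h' => hph ((Nat.dvd_add_right hn).1 h')
          have : xx h n p = 1 := by
            unfold xx
            rw [if_pos (hn.mul_right _)]
          rw [this, one_mul, if_neg (show ¬ (d1 ∣ n ∧ p * d2 ∣ n + h) from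
            fun h' => hn' ((m2 _).1 h'.2).1), add_zero]
          by_cases hd : d1 ∣ n ∧ d2 ∣ n + h
          · rw [if_pos hd, if_pos ⟨(m1 n).2 ⟨hn, hd.1⟩, hd.2⟩]
          · rw [if_neg hd, if_neg (fun h' => hd ⟨((m1 n).1 h'.1).2, h'.2⟩)]
        · rw [if_neg (show ¬ (p * d1 ∣ n ∧ d2 ∣ n + h) from
            fun h' => hn ((m1 _).1 h'.1).1), zero_add]
          by_cases hn' : p ∣ n + h
          · have : xx h n p = 1 := by
              unfold xx
              rw [if_pos (hn'.mul_left _)]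
            rw [this, one_mul]
            by_cases hd : d1 ∣ n ∧ d2 ∣ n + h
            · rw [if_pos hd, if_pos ⟨hd.1, (m2 _).2 ⟨hn', hd.2⟩⟩]
            · rw [if_neg hd, if_neg (fun h' => hd ⟨h'.1, ((m2 _).1 h'.2).2⟩)]
          · have : xx h n p = 0 := by
              unfold xx
              rw [if_neg (fun h' => by
                rcases hpp.dvd_mul.1 h' with h'' | h''
                · exact hn h''
                · exact hn' h'')]
            rw [this, zero_mul, ite_self, if_neg (fun h' => hn' ((m2 _).1 h'.2).1)]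
      have hg : gg h p = 2 / (p : ℝ) := by
        unfold gg
        rw [if_neg hph]
      have e2 : (N : ℝ) / ((d1 : ℝ) * d2) * (gg h p * ∏ q ∈ T, gg h q) =
          N / (((p * d1 : ℕ) : ℝ) * d2) * ∏ q ∈ T, gg h q +
          N / ((d1 : ℝ) * ((p * d2 : ℕ) : ℝ)) * ∏ q ∈ T, gg h q := by
        rw [hg]
        push_cast
        field_simp
        ring
      rw [e, e2]
      rw [abs_le] at b1 b2 ⊢
      constructor <;> linarith [b1.1, b1.2, b2.1, b2.2]

end Pool.Agent.Lib_helper5.RUN
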