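import Pool.Agent.Lib_helper5.RUN.Sieve

/-!
# Runs of primes: the mass of the Selberg sieve for `n (n + h)`
-/

set_option autoImplicit false

namespace Pool.Agent.Lib_helper5.RUN

open Finset ArithmeticFunction

/-- `1/n` -/
noncomputable def uu : ArithmeticFunction ℝ := ⟨fun n => (n : ℝ)⁻¹, by simp⟩

/-- `1/n` on the integers coprime to `h` -/
noncomputable def vv (h : ℕ) : ArithmeticFunction ℝ :=
  ⟨fun n => if Nat.Coprime n h then (n : ℝ)⁻¹ else 0, by simp⟩

/-- `1/n` on the integers all of whose prime factors divide `h` -/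
noncomputable def ww (h : ℕ) : ArithmeticFunction ℝ :=
  ⟨fun n => if (∀ p ∈ n.primeFactors, p ∣ h) then (n : ℝ)⁻¹ else 0, by simp⟩

/-- the convolution -/
noncomputable def FF (h : ℕ) : ArithmeticFunction ℝ := uu * vv h

theorem uu_apply (n : ℕ) : uu n = (n : ℝ)⁻¹ := rfl

theorem vv_apply (h n : ℕ) : vv h n = if Nat.Coprime n h then (n : ℝ)⁻¹ else 0 := rfl

theorem ww_apply (h n : ℕ) :
    ww h n = if (∀ p ∈ n.primeFactors, p ∣ h) then (n : ℝ)⁻¹ else 0 := rfl

theorem uu_mult : uu.IsMultiplicative := by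
  refine ⟨by simp [uu_apply], fun {m n} _ => ?_⟩
  rw [uu_apply, uu_apply, uu_apply, Nat.cast_mul, mul_inv]

theorem vv_mult (h : ℕ) : (vv h).IsMultiplicative := by
  refine ⟨by simp [vv_apply], fun {m n} _ => ?_⟩
  rw [vv_apply, vv_apply, vv_apply]
  by_cases h1 : Nat.Coprime m h
  · by_cases h2 : Nat.Coprime n h
    · rw [if_pos h1, if_pos h2, if_pos (Nat.Coprime.mul_left h1 h2), Nat.cast_mul, mul_inv]
    · rw [if_neg h2, mul_zero, if_neg (fun h3 => h2 (Nat.Coprime.coprime_mul_left h3))]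
  · rw [if_neg h1, zero_mul, if_neg (fun h3 => h1 (Nat.Coprime.coprime_mul_right h3))]

theorem ww_mult (h : ℕ) : (ww h).IsMultiplicative := by
  refine ⟨by simp [ww_apply], fun {m n} hmn => ?_⟩
  rw [ww_apply, ww_apply, ww_apply, hmn.primeFactors_mul]
  by_cases h1 : ∀ p ∈ m.primeFactors, p ∣ h
  · by_cases h2 : ∀ p ∈ n.primeFactors, p ∣ h
    · rw [if_pos h1, if_pos h2, if_pos, Nat.cast_mul, mul_inv]
      intro p hp
      rcases mem_union.1 hp with h3 | h3
      · exact h1 p h3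
      · exact h2 p h3
    · rw [if_neg h2, mul_zero, if_neg (fun h3 => h2 (fun p hp => h3 p (mem_union_right _ hp)))]
  · rw [if_neg h1, zero_mul, if_neg (fun h3 => h1 (fun p hp => h3 p (mem_union_left _ hp)))]

theorem FF_mult (h : ℕ) : (FF h).IsMultiplicative := uu_mult.mul (vv_mult h)

theorem mul_pp (f g : ArithmeticFunction ℝ) {p : ℕ} (hp : p.Prime) (k : ℕ) :
    (f * g) (p ^ k) = ∑ i ∈ range (k + 1), f (p ^ (k - i)) * g (p ^ i) := by
  rw [ArithmeticFunction.mul_apply,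
    Nat.sum_divisorsAntidiagonal' (f := fun a b => f a * g b),
    Nat.sum_divisors_prime_pow hp]
  refine sum_congr rfl fun i hi => ?_
  have hik : i ≤ k := by
    have := mem_range.1 hi
    omega
  rw [Nat.pow_div hik hp.pos]

theorem vv_dvd {h p i : ℕ} (hp : p.Prime) (hd : p ∣ h) (hi : i ≠ 0) : vv h (p ^ i) = 0 := by
  rw [vv_apply, if_neg]
  intro hc
  have h1 : p ∣ p ^ i := dvd_pow_self p hi
  have := Nat.Coprime.eq_one_of_dvd (Nat.Coprime.coprime_dvd_left h1 hc) hd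
  exact hp.one_lt.ne' this

theorem vv_ndvd {h p : ℕ} (hp : p.Prime) (hd : ¬ p ∣ h) (i : ℕ) :
    vv h (p ^ i) = ((p : ℝ) ^ i)⁻¹ := by
  rw [vv_apply, if_pos (Nat.Coprime.pow_left i ((Nat.Prime.coprime_iff_not_dvd hp).2 hd))]
  push_cast
  rfl

theorem uu_pp (p i : ℕ) : uu (p ^ i) = ((p : ℝ) ^ i)⁻¹ := by
  rw [uu_apply]
  push_cast
  rfl

theorem uu_eq (h : ℕ) : uu = ww h * vv h := by
  refine (ArithmeticFunction.IsMultiplicative.eq_iff_eq_on_prime_powers uu uu_mult (ww h * vv h)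
    ((ww_mult h).mul (vv_mult h))).2 ?_
  intro p k hp
  rw [mul_pp _ _ hp, uu_pp]
  by_cases hd : p ∣ h
  · rw [sum_eq_single 0]
    · rw [Nat.sub_zero, pow_zero, ww_apply, if_pos, vv_apply, if_pos (Nat.coprime_one_left h)]
      · push_cast
        simp
      · intro q hq
        have h1 := Nat.prime_of_mem_primeFactors hq
        have h2 := Nat.dvd_of_mem_primeFactors hq
        rw [(Nat.prime_dvd_prime_iff_eq h1 hp).1 (h1.dvd_of_dvd_pow h2)]
        exact hd
    · intro i _ hi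
      rw [vv_dvd hp hd hi, mul_zero]
    · intro h1
      exact absurd (mem_range.2 (by omega)) h1
  · rw [sum_eq_single k]
    · rw [Nat.sub_self, pow_zero, vv_ndvd hp hd, ww_apply, if_pos (by simp)]
      simp
    · intro i hi hik
      have hik' : k - i ≠ 0 := by
        have := mem_range.1 hi
        omega
      rw [ww_apply, if_neg, zero_mul]
      intro h1
      exact hd (h1 p (by
        rw [Nat.primeFactors_prime_pow hik' hp]
        exact mem_singleton_self p))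
    · intro h1
      exact absurd (mem_range.2 (by omega)) h1

theorem uu_nonneg (n : ℕ) : 0 ≤ uu n := by
  rw [uu_apply]
  positivity

theorem vv_nonneg (h n : ℕ) : 0 ≤ vv h n := by
  rw [vv_apply]
  split_ifs <;> positivity

theorem ww_nonneg (h n : ℕ) : 0 ≤ ww h n := by
  rw [ww_apply]
  split_ifs <;> positivity

theorem FF_nonneg (h n : ℕ) : 0 ≤ FF h n := by
  unfold FF
  rw [ArithmeticFunction.mul_apply]
  exact sum_nonneg fun x _ => mul_nonneg (uu_nonneg _) (vv_nonneg _ _)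

theorem FF_pp_le {h p : ℕ} (hp : p.Prime) (k : ℕ) : FF h (p ^ k) ≤ (gg h p) ^ k := by
  have hp0 : (0 : ℝ) < p := by exact_mod_cast hp.pos
  unfold FF gg
  rw [mul_pp _ _ hp]
  by_cases hd : p ∣ h
  · rw [if_pos hd, sum_eq_single 0]
    · rw [Nat.sub_zero, pow_zero, uu_pp, vv_apply, if_pos (Nat.coprime_one_left h)]
      simp
    · intro i _ hi
      rw [vv_dvd hp hd hi, mul_zero]
    · intro h1
      exact absurd (mem_range.2 (by omega)) h1
  · rw [if_neg hd]
    have h1 : ∀ i ∈ range (k + 1), uu (p ^ (k - i)) * vv h (p ^ i) = ((p : ℝ) ^ k)⁻¹ := by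
      intro i hi
      have hik : i ≤ k := by
        have := mem_range.1 hi
        omega
      rw [vv_ndvd hp hd, uu_pp, ← mul_inv, ← pow_add, Nat.sub_add_cancel hik]
    rw [sum_congr rfl h1, sum_const, card_range, nsmul_eq_mul, div_pow]
    have h2 : ((k + 1 : ℕ) : ℝ) ≤ 2 ^ k := by
      exact_mod_cast Nat.lt_two_pow_self
    rw [div_eq_mul_inv]
    exact mul_le_mul_of_nonneg_right h2 (by positivity)

theorem geom_Icc (y : ℝ) (N : ℕ) : (1 - y) * ∑ j ∈ Icc 1 N, y ^ j = y - y ^ (N + 1) := by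
  induction N with
  | zero => simp
  | succ N ih =>
    rw [sum_Icc_succ_top (by omega), mul_add, ih]
    ring

theorem local_le {h p : ℕ} (hp : p.Prime) (hh : 2 ∣ h) (N : ℕ) :
    ∑ j ∈ Icc 1 N, FF h (p ^ j) ≤ gg h p / (1 - gg h p) := by
  obtain ⟨g0, g1, _⟩ := gg_bounds hp hh
  have h1 : ∑ j ∈ Icc 1 N, FF h (p ^ j) ≤ ∑ j ∈ Icc 1 N, (gg h p) ^ j :=
    sum_le_sum fun j _ => FF_pp_le hp j
  refine h1.trans ?_
  rw [le_div_iff₀ (by linarith), mul_comm, geom_Icc]
  have := pow_nonneg g0 (N + 1)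
  linarith

theorem fib (h N : ℕ) (hh : 2 ∣ h) (s : Finset ℕ) : (∀ p ∈ s, p.Prime) →
    ∑ n ∈ (Icc 1 N).filter (fun n => n.primeFactors = s), FF h n ≤
      ∏ p ∈ s, gg h p / (1 - gg h p) := by
  classical
  induction s using Finset.induction_on with
  | empty =>
    intro _
    have h1 : (Icc 1 N).filter (fun n => n.primeFactors = ∅) ⊆ {1} := by
      intro n hn
      obtain ⟨h1, h2⟩ := mem_filter.1 hn
      rw [Nat.primeFactors_eq_empty] at h2
      have := (mem_Icc.1 h1).1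
      rw [mem_singleton]
      omega
    refine (sum_le_sum_of_subset_of_nonneg h1 fun n _ _ => FF_nonneg h n).trans ?_
    rw [sum_singleton, (FF_mult h).1, prod_empty]
  | insert p s hps ih =>
    intro hs
    have hp := hs p (mem_insert_self p s)
    have ih' := ih (fun q hq => hs q (mem_insert_of_mem hq))
    set T := (Icc 1 N).filter (fun n => n.primeFactors = insert p s) with hT
    set T' := (Icc 1 N).filter (fun n => n.primeFactors = s) with hT'
    let φ : ℕ → ℕ × ℕ := fun n => (n.factorization p, n / p ^ n.factorization p)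
    let g : ℕ × ℕ → ℝ := fun x => FF h (p ^ x.1) * FF h x.2
    have hmem : ∀ n ∈ T, 1 ≤ n ∧ n ≤ N ∧ n.primeFactors = insert p s := by
      intro n hn
      rw [hT, mem_filter, mem_Icc] at hn
      exact ⟨hn.1.1, hn.1.2, hn.2⟩
    have hFg : ∀ n ∈ T, FF h n = g (φ n) := by
      intro n hn
      have h1 := hmem n hn
      have h2 : n = p ^ n.factorization p * (n / p ^ n.factorization p) :=
        (Nat.ordProj_mul_ordCompl_eq_self n p).symm
      have h3 : Nat.Coprime (p ^ n.factorization p) (n / p ^ n.factorization p) :=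
        Nat.Coprime.pow_left _ (Nat.coprime_ordCompl hp (by omega))
      conv_lhs => rw [h2]
      exact (FF_mult h).map_mul_of_coprime h3
    have hinj : Set.InjOn φ T := by
      intro a _ b _ hab
      have h1 : a.factorization p = b.factorization p := congrArg Prod.fst hab
      have h2 : a / p ^ a.factorization p = b / p ^ b.factorization p := congrArg Prod.snd hab
      rw [← Nat.ordProj_mul_ordCompl_eq_self a p, ← Nat.ordProj_mul_ordCompl_eq_self b p, h2, h1]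
    have hsub : T.image φ ⊆ (Icc 1 N) ×ˢ T' := by
      intro x hx
      obtain ⟨n, hn, rfl⟩ := mem_image.1 hx
      have h1 := hmem n hn
      have hn0 : n ≠ 0 := by omega
      have hpn : p ∈ n.primeFactors := by
        rw [h1.2.2]
        exact mem_insert_self p s
      have hdvd := Nat.dvd_of_mem_primeFactors hpn
      rw [mem_product, mem_Icc, hT', mem_filter, mem_Icc]
      refine ⟨⟨hp.factorization_pos_of_dvd hn0 hdvd, ?_⟩, ⟨?_, ?_⟩, ?_⟩
      · exact (Nat.factorization_lt p hn0).le.trans h1.2.1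
      · exact Nat.ordCompl_pos p hn0
      · exact (Nat.ordCompl_le n p).trans h1.2.1
      · have h4 : (n / p ^ n.factorization p).primeFactors = n.primeFactors.erase p := by
          rw [← Nat.support_factorization, Nat.factorization_ordCompl, Finsupp.support_erase,
            Nat.support_factorization]
        change (n / p ^ n.factorization p).primeFactors = s
        rw [h4, h1.2.2, erase_insert hps]
    have hg : ∀ x, 0 ≤ g x := fun x => mul_nonneg (FF_nonneg _ _) (FF_nonneg _ _)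
    calc ∑ n ∈ T, FF h n = ∑ n ∈ T, g (φ n) := sum_congr rfl hFg
      _ = ∑ x ∈ T.image φ, g x := (sum_image hinj).symm
      _ ≤ ∑ x ∈ (Icc 1 N) ×ˢ T', g x :=
          sum_le_sum_of_subset_of_nonneg hsub fun x _ _ => hg x
      _ = (∑ j ∈ Icc 1 N, FF h (p ^ j)) * ∑ n ∈ T', FF h n := by
          rw [sum_product, sum_mul_sum]
      _ ≤ (gg h p / (1 - gg h p)) * ∏ q ∈ s, gg h q / (1 - gg h q) := by
          obtain ⟨g0, g1, _⟩ := gg_bounds hp hh
          exact mul_le_mul (local_le hp hh N) ih' (sum_nonneg fun n _ => FF_nonneg h n)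
            (div_nonneg g0 (by linarith))
      _ = ∏ q ∈ insert p s, gg h q / (1 - gg h q) := by
          rw [prod_insert hps]

theorem rad {s : Finset ℕ} (hs : ∀ p ∈ s, p.Prime) :
    Squarefree (∏ p ∈ s, p) ∧ (∏ p ∈ s, p).primeFactors = s := by
  have h1 : (∏ p ∈ s, p).primeFactors = s := Nat.primeFactors_prod hs
  refine ⟨?_, h1⟩
  have h0 : (∏ p ∈ s, p) ≠ 0 := prod_ne_zero_iff.2 fun p hp => (hs p hp).ne_zero
  rw [Nat.squarefree_iff_prime_squarefree]
  intro q hq hqq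
  have hqs : q ∈ s := by
    rw [← h1]
    exact Nat.mem_primeFactors.2 ⟨hq, (dvd_mul_right q q).trans hqq, h0⟩
  rw [← mul_prod_erase s _ hqs] at hqq
  have h2 : q ∣ ∏ p ∈ s.erase q, p := Nat.dvd_of_mul_dvd_mul_left hq.pos hqq
  rw [Prime.dvd_finsetProd_iff hq.prime] at h2
  obtain ⟨r, hr, hqr⟩ := h2
  rw [mem_erase] at hr
  exact hr.1 ((Nat.prime_dvd_prime_iff_eq hq (hs r hr.2)).1 hqr).symm

open Classical in
theorem mass_up (h N : ℕ) (hh : 2 ∣ h) (S : Finset ℕ) (hS : ∀ p : ℕ, p.Prime → p ≤ N → p ∈ S) :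
    ∑ n ∈ Icc 1 N, FF h n ≤ ∑ d ∈ (Icc 1 N).filter (fun d : ℕ => Squarefree d ∧
      ∀ p : ℕ, p.Prime → p ∣ d → p ∈ S), ∏ p ∈ d.primeFactors, gg h p / (1 - gg h p) := by
  set D := (Icc 1 N).filter (fun d : ℕ => Squarefree d ∧
      ∀ p : ℕ, p.Prime → p ∣ d → p ∈ S) with hD
  have hpr : ∀ n : ℕ, ∀ p ∈ n.primeFactors, p.Prime := fun n p hp =>
    Nat.prime_of_mem_primeFactors hp
  have hmap : ∀ n ∈ Icc 1 N, (∏ p ∈ n.primeFactors, p) ∈ D := by
    intro n hn
    obtain ⟨h1, h2⟩ := mem_Icc.1 hn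
    have h3 := Nat.le_of_dvd (by omega) (Nat.prod_primeFactors_dvd n)
    obtain ⟨h4, h5⟩ := rad (hpr n)
    have h6 : 0 < ∏ p ∈ n.primeFactors, p := Nat.pos_of_ne_zero h4.ne_zero
    refine mem_filter.2 ⟨mem_Icc.2 ⟨h6, h3.trans h2⟩, h4, ?_⟩
    intro p hp hpd
    exact hS p hp ((Nat.le_of_dvd h6 hpd).trans (h3.trans h2))
  rw [← sum_fiberwise_of_maps_to hmap]
  apply sum_le_sum
  intro d hd
  refine le_trans (sum_le_sum_of_subset_of_nonneg ?_ fun n _ _ => FF_nonneg h n)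
    (fib h N hh d.primeFactors (hpr d))
  intro n hn
  obtain ⟨h1, h2⟩ := mem_filter.1 hn
  refine mem_filter.2 ⟨h1, ?_⟩
  rw [← h2, (rad (hpr n)).2]

theorem harm (M : ℕ) : Real.log (M + 1) ≤ ∑ v ∈ Ioc 0 M, (v : ℝ)⁻¹ := by
  have h2 := log_add_one_le_harmonic M
  rw [harmonic_eq_sum_Icc] at h2
  push_cast at h2
  refine h2.trans (le_of_eq ?_)
  rfl

theorem half_log_sq {N : ℕ} (hN : 1 ≤ N) : Real.log N ^ 2 / 2 ≤
    ∑ u ∈ Ioc 0 N, (u : ℝ)⁻¹ * (Real.log N - Real.log u) := by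
  induction N, hN using Nat.le_induction with
  | base => simp
  | succ N hN ih =>
    have hN0 : (0 : ℝ) < N := by exact_mod_cast (show 0 < N by omega)
    have e : ∑ u ∈ Ioc 0 (N + 1), (u : ℝ)⁻¹ * (Real.log ((N + 1 : ℕ) : ℝ) - Real.log u) =
        ∑ u ∈ Ioc 0 N, (u : ℝ)⁻¹ * (Real.log N - Real.log u) +
        (Real.log ((N + 1 : ℕ) : ℝ) - Real.log N) * ∑ u ∈ Ioc 0 N, (u : ℝ)⁻¹ := by
      rw [sum_Ioc_succ_top (by omega), sub_self, mul_zero, add_zero, mul_sum, ← sum_add_distrib]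
      refine sum_congr rfl fun u _ => ?_
      ring
    rw [e]
    have h1 := harm N
    have h2 : Real.log N ≤ Real.log ((N + 1 : ℕ) : ℝ) :=
      Real.log_le_log hN0 (by push_cast; linarith)
    have h3 : Real.log ((N + 1 : ℕ) : ℝ) = Real.log (N + 1) := by push_cast; rfl
    rw [← h3] at h1
    have h4 := mul_le_mul_of_nonneg_left h1 (sub_nonneg.2 h2)
    nlinarith [sq_nonneg (Real.log ((N + 1 : ℕ) : ℝ) - Real.log N)]

theorem mass_low {N : ℕ} (hN : 1 ≤ N) : Real.log N ^ 2 / 2 ≤ ∑ n ∈ Ioc 0 N, (uu * uu) n := by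
  rw [ArithmeticFunction.sum_Ioc_mul_eq_sum_sum]
  refine (half_log_sq hN).trans (sum_le_sum fun u hu => ?_)
  obtain ⟨hu0, huN⟩ := mem_Ioc.1 hu
  rw [uu_apply]
  apply mul_le_mul_of_nonneg_left _ (by positivity)
  have hu0' : (0 : ℝ) < u := by exact_mod_cast hu0
  have hN0 : (0 : ℝ) < N := by exact_mod_cast (show 0 < N by omega)
  have h1 : ∑ v ∈ Ioc 0 (N / u), uu v = ∑ v ∈ Ioc 0 (N / u), (v : ℝ)⁻¹ := rfl
  rw [h1]
  refine le_trans ?_ (harm (N / u))
  rw [← Real.log_div hN0.ne' hu0'.ne']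
  apply Real.log_le_log (by positivity)
  rw [div_le_iff₀ hu0']
  have h2 : N < u * (N / u + 1) := Nat.lt_mul_div_succ N hu0
  have h3 : (N : ℝ) < u * (((N / u : ℕ) : ℝ) + 1) := by exact_mod_cast h2
  linarith

theorem ww_sum {h N Y : ℕ} (hY : N ≤ Y) : ∑ a ∈ Ioc 0 N, ww h a ≤ GG Y h := by
  classical
  let f : ℕ →* ℝ :=
    { toFun := fun n => (n : ℝ)⁻¹
      map_one' := by simp
      map_mul' := fun a b => by simp [mul_comm] }
  have hf : ∀ {p : ℕ}, p.Prime → ‖f p‖ < 1 := by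
    intro p hp
    have h2 : (2 : ℝ) ≤ p := by exact_mod_cast hp.two_le
    change ‖(p : ℝ)⁻¹‖ < 1
    rw [norm_inv, Real.norm_of_nonneg (by linarith)]
    exact inv_lt_one_of_one_lt₀ (by linarith)
  set s := (Nat.primesBelow (Y + 1)).filter (fun p => p ∣ h) with hs
  obtain ⟨hsum, hhas⟩ :=
    EulerProduct.summable_and_hasSum_factoredNumbers_prod_filter_prime_geometric hf s
  have hG : ∏ p ∈ s with p.Prime, (1 - f p)⁻¹ = GG Y h := by
    have h1 : s.filter (fun p => p.Prime) = s := by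
      rw [filter_eq_self]
      intro p hp
      exact Nat.prime_of_mem_primesBelow (mem_filter.1 hp).1
    rw [h1, hs, prod_filter]
    unfold GG
    refine prod_congr rfl fun p _ => ?_
    rw [one_div]
    rfl
  have h1 : ∑ a ∈ Ioc 0 N, ww h a =
      ∑ a ∈ (Ioc 0 N).filter (fun a => ∀ p ∈ a.primeFactors, p ∣ h), (a : ℝ)⁻¹ := by
    rw [sum_filter]
    rfl
  rw [h1, ← hG, ← hhas.tsum_eq]
  have hsm : Summable (fun m : Nat.factoredNumbers s => f m) := hhas.summable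
  have hm : ∀ a ∈ (Ioc 0 N).filter (fun a => ∀ p ∈ a.primeFactors, p ∣ h),
      a ∈ Nat.factoredNumbers s := by
    intro a ha
    obtain ⟨h2, h3⟩ := mem_filter.1 ha
    obtain ⟨h4, h5⟩ := mem_Ioc.1 h2
    rw [Nat.mem_factoredNumbers_iff_primeFactors_subset]
    refine ⟨by omega, fun p hp => ?_⟩
    have h6 := Nat.prime_of_mem_primeFactors hp
    have h7 := Nat.le_of_dvd h4 (Nat.dvd_of_mem_primeFactors hp)
    exact mem_filter.2 ⟨Nat.mem_primesBelow.2 ⟨by omega, h6⟩, h3 p hp⟩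
  let e : {a // a ∈ (Ioc 0 N).filter (fun a => ∀ p ∈ a.primeFactors, p ∣ h)} →
      Nat.factoredNumbers s := fun n => ⟨n.1, hm n.1 n.2⟩
  have hinj : Function.Injective e := fun a b hab => Subtype.ext (congrArg (fun x => x.1) hab)
  have h3 : ∑ n ∈ (Ioc 0 N).filter (fun a => ∀ p ∈ a.primeFactors, p ∣ h), (n : ℝ)⁻¹ =
      ∑ m ∈ (Finset.univ.map ⟨e, hinj⟩ : Finset (Nat.factoredNumbers s)), f m := by
    rw [sum_map]
    exact (sum_coe_sort ((Ioc 0 N).filter (fun a => ∀ p ∈ a.primeFactors, p ∣ h))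
      (fun n => (n : ℝ)⁻¹)).symm
  rw [h3]
  apply hsm.sum_le_tsum
  intro m _
  exact inv_nonneg.2 (Nat.cast_nonneg _)

open Classical in
/-- **the mass of the sieve** -/
theorem mass {h N Y : ℕ} (hN : 1 ≤ N) (hY : N ≤ Y) (hh : 2 ∣ h) (S : Finset ℕ)
    (hS : ∀ p : ℕ, p.Prime → p ≤ N → p ∈ S) : Real.log N ^ 2 / 2 ≤
    GG Y h * ∑ d ∈ (Icc 1 N).filter (fun d : ℕ => Squarefree d ∧
      ∀ p : ℕ, p.Prime → p ∣ d → p ∈ S), ∏ p ∈ d.primeFactors, gg h p / (1 - gg h p) := by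
  have h1 := mass_up h N hh S hS
  have e : uu * uu = ww h * FF h := by
    unfold FF
    rw [mul_left_comm, ← uu_eq]
  have h2 : ∑ n ∈ Ioc 0 N, (uu * uu) n ≤ (∑ a ∈ Ioc 0 N, ww h a) * ∑ m ∈ Icc 1 N, FF h m := by
    rw [e, ArithmeticFunction.sum_Ioc_mul_eq_sum_sum, sum_mul]
    refine sum_le_sum fun a _ => mul_le_mul_of_nonneg_left ?_ (ww_nonneg h a)
    refine sum_le_sum_of_subset_of_nonneg ?_ fun n _ _ => FF_nonneg h n
    intro m hm
    obtain ⟨h3, h4⟩ := mem_Ioc.1 hm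
    exact mem_Icc.2 ⟨h3, h4.trans (Nat.div_le_self _ _)⟩
  have h3 : 0 ≤ ∑ m ∈ Icc 1 N, FF h m := sum_nonneg fun n _ => FF_nonneg h n
  have h4 : 0 ≤ GG Y h := zero_le_one.trans (GG_ge Y h)
  calc Real.log N ^ 2 / 2 ≤ ∑ n ∈ Ioc 0 N, (uu * uu) n := mass_low hN
    _ ≤ (∑ a ∈ Ioc 0 N, ww h a) * ∑ m ∈ Icc 1 N, FF h m := h2
    _ ≤ GG Y h * ∑ m ∈ Icc 1 N, FF h m := mul_le_mul_of_nonneg_right (ww_sum hY) h3
    _ ≤ _ := mul_le_mul_of_nonneg_left h1 h4

end Pool.Agent.Lib_helper5.RUN
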