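import Pool.Agent.Lib_helper5.RUN.Mass
import Pool.Agent.Lib_helper10.T2F.SLW

/-!
# Runs of primes: explicit upper bound for prime pairs by Selberg's sieve
-/

set_option autoImplicit false

namespace Pool.Agent.Lib_helper5.RUN

open Finset Filter

theorem gg_pos {h p : ℕ} (hp : p.Prime) : 0 < gg h p := by
  have : (0 : ℝ) < p := by exact_mod_cast hp.pos
  unfold gg
  split_ifs <;> positivity

theorem count_eq {N h d : ℕ} (hd : Squarefree d) :
    (((Ioc 0 N).filter (fun n => d ∣ n * (n + h))).card : ℝ) = AA N h 1 1 d.primeFactors := by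
  unfold AA
  rw [card_filter]
  push_cast
  refine sum_congr rfl fun n _ => ?_
  have h0 : (1 ∣ n ∧ 1 ∣ n + h) := ⟨one_dvd _, one_dvd _⟩
  rw [if_pos h0]
  by_cases h1 : d ∣ n * (n + h)
  · rw [if_pos h1]
    symm
    apply prod_eq_one
    intro p hp
    unfold xx
    rw [if_pos ((Nat.dvd_of_mem_primeFactors hp).trans h1)]
  · rw [if_neg h1]
    symm
    have : ∃ p ∈ d.primeFactors, ¬ p ∣ n * (n + h) := by
      by_contra hcon
      push Not at hcon
      apply h1
      rw [← Nat.prod_primeFactors_of_squarefree hd]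
      exact prod_primes_dvd _ (fun p hp => (Nat.prime_of_mem_primeFactors hp).prime) hcon
    obtain ⟨p, hp, hp'⟩ := this
    exact prod_eq_zero hp (by
      unfold xx
      rw [if_neg hp'])

theorem count_bound {N h d : ℕ} (hd : Squarefree d) :
    |(((Ioc 0 N).filter (fun n => d ∣ n * (n + h))).card : ℝ) -
      N * ∏ p ∈ d.primeFactors, gg h p| ≤ 2 ^ d.primeFactors.card := by
  rw [count_eq hd]
  have hb := AA_bound (N := N) (h := h) d.primeFactors
    (fun p hp => Nat.prime_of_mem_primeFactors hp) 1 1 one_pos one_pos (Nat.coprime_one_right 1)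
    (fun p _ => ⟨Nat.coprime_one_right p, Nat.coprime_one_right p⟩)
  refine le_trans (le_of_eq ?_) hb
  simp

open Classical in
theorem pair_raw {N h M : ℕ} (hh : 2 ∣ h) (hM : 2 ≤ M) :
    ((PP N h).card : ℝ) ≤ M ^ 2 + N * (2 / Real.log M ^ 2 * GG (M ^ 2) h) +
      ∑ d ∈ Icc 1 (M ^ 2), (6 : ℝ) ^ d.primeFactors.card := by
  set Y := M ^ 2 with hYd
  set S := Nat.primesBelow (Y + 1) with hSd
  have hSp : ∀ p ∈ S, p.Prime := fun p hp => Nat.prime_of_mem_primesBelow hp
  have hM1 : (1 : ℝ) ≤ M := by exact_mod_cast (show 1 ≤ M by omega)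
  obtain ⟨θ, t1, t2, t3, t4, t5⟩ := Pool.Agent.T2.selberg_weights S hSp (gg h)
    (fun p hp => ⟨gg_pos (hSp p hp), by
      have := (gg_bounds (hSp p hp) hh).2.1
      linarith⟩) M hM1
  have hfl : ⌊(M : ℝ) ^ 2⌋₊ = Y := by
    rw [hYd, ← Nat.cast_pow, Nat.floor_natCast]
  have hfl2 : ⌊(M : ℝ)⌋₊ = M := Nat.floor_natCast M
  rw [hfl, hfl2] at t5
  have hθY : ∀ d, θ d ≠ 0 → d ≤ Y := by
    intro d hd
    have := (t1 d hd).2.2
    rw [hYd]
    exact_mod_cast this
  -- the pointwise bound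
  have e1 : ((PP N h).card : ℝ) ≤ Y + ∑ n ∈ Ioc 0 N, ∑ d ∈ (n * (n + h)).divisors, θ d := by
    have h1 : ((PP N h).card : ℝ) =
        ∑ o ∈ Ioc 0 N, if (o.Prime ∧ (o + h).Prime) then (1 : ℝ) else 0 := by
      rw [sum_boole]
      rfl
    have h2 : (Y : ℝ) ≥ ∑ o ∈ Ioc 0 N, if o ≤ Y then (1 : ℝ) else 0 := by
      rw [sum_boole]
      have : ((Ioc 0 N).filter (fun o => o ≤ Y)).card ≤ (Ioc 0 Y).card := by
        apply card_le_card
        intro o ho
        rw [mem_filter, mem_Ioc] at ho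
        exact mem_Ioc.2 ⟨ho.1.1, ho.2⟩
      rw [Nat.card_Ioc, Nat.sub_zero] at this
      exact_mod_cast this
    rw [h1]
    refine le_trans ?_ (add_le_add h2 le_rfl)
    rw [← sum_add_distrib]
    apply sum_le_sum
    intro o ho
    have ho1 := (mem_Ioc.1 ho).1
    have hP := t4 (o * (o + h)) (Nat.mul_pos ho1 (by omega))
    by_cases hoY : o ≤ Y
    · rw [if_pos hoY]
      split_ifs <;> linarith
    · rw [if_neg hoY]
      split_ifs with hpr
      · have : ∑ d ∈ (o * (o + h)).divisors, θ d = θ 1 := by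
          apply sum_eq_single 1
          · intro d hd hd1
            by_contra hne
            obtain ⟨_, h4, _⟩ := t1 d hne
            obtain ⟨q, hq, hqd⟩ := Nat.exists_prime_and_dvd hd1
            have hqY := Nat.lt_of_mem_primesBelow (h4 q hq hqd)
            rcases hq.dvd_mul.1 (hqd.trans (Nat.dvd_of_mem_divisors hd)) with h' | h'
            · have := (Nat.prime_dvd_prime_iff_eq hq hpr.1).1 h'
              omega
            · have := (Nat.prime_dvd_prime_iff_eq hq hpr.2).1 h'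
              omega
          · intro h1'
            exact absurd (Nat.one_mem_divisors.2 (Nat.mul_pos ho1 (by omega)).ne') h1'
        rw [this, t3]
        norm_num
      · linarith
  -- exchange of the sums
  have e2 : ∑ n ∈ Ioc 0 N, ∑ d ∈ (n * (n + h)).divisors, θ d =
      ∑ d ∈ Icc 1 Y, θ d * (((Ioc 0 N).filter (fun n => d ∣ n * (n + h))).card : ℝ) := by
    have h1 : ∀ n ∈ Ioc 0 N, ∑ d ∈ (n * (n + h)).divisors, θ d =
        ∑ d ∈ Icc 1 Y, if d ∣ n * (n + h) then θ d else 0 := by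
      intro n hn
      have hn1 := (mem_Ioc.1 hn).1
      have hpos : 0 < n * (n + h) := Nat.mul_pos hn1 (by omega)
      rw [← sum_filter]
      symm
      apply sum_subset_zero_on_sdiff
      · intro d hd
        exact Nat.mem_divisors.2 ⟨(mem_filter.1 hd).2, hpos.ne'⟩
      · intro d hd
        obtain ⟨h2, h3⟩ := mem_sdiff.1 hd
        by_contra hne
        apply h3
        have h4 := Nat.dvd_of_mem_divisors h2
        exact mem_filter.2 ⟨mem_Icc.2 ⟨Nat.pos_of_dvd_of_pos h4 hpos, hθY d hne⟩, h4⟩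
      · intro d _
        rfl
    rw [sum_congr rfl h1, sum_comm]
    refine sum_congr rfl fun d _ => ?_
    rw [← sum_filter, sum_const, nsmul_eq_mul, mul_comm]
  have e3 : ∑ d ∈ Icc 1 Y, θ d * (((Ioc 0 N).filter (fun n => d ∣ n * (n + h))).card : ℝ) ≤
      N * ∑ d ∈ Icc 1 Y, θ d * ∏ p ∈ d.primeFactors, gg h p +
      ∑ d ∈ Icc 1 Y, (6 : ℝ) ^ d.primeFactors.card := by
    rw [mul_sum, ← sum_add_distrib]
    apply sum_le_sum
    intro d _
    by_cases hd : θ d = 0
    · rw [hd]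
      simp
    · have h1 := count_bound (N := N) (h := h) (t1 d hd).1
      have h2 := t2 d
      have h3 : |θ d * ((((Ioc 0 N).filter (fun n => d ∣ n * (n + h))).card : ℝ) -
          N * ∏ p ∈ d.primeFactors, gg h p)| ≤ 6 ^ d.primeFactors.card := by
        rw [abs_mul, show (6 : ℝ) = 3 * 2 by norm_num, mul_pow]
        exact mul_le_mul h2 h1 (abs_nonneg _) (by positivity)
      have h4 := (abs_le.1 h3).2
      linarith
  have hG := mass (h := h) (N := M) (Y := Y) (by omega) (by rw [hYd]; nlinarith) hh S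
    (fun p hp hpM => Nat.mem_primesBelow.2 ⟨by rw [hYd]; nlinarith, hp⟩)
  set G := ∑ d ∈ (Icc 1 M).filter (fun d : ℕ => Squarefree d ∧
      ∀ p : ℕ, p.Prime → p ∣ d → p ∈ S), ∏ p ∈ d.primeFactors, gg h p / (1 - gg h p) with hGd
  have hlogM : 0 < Real.log M := Real.log_pos (by exact_mod_cast (show 1 < M by omega))
  have hGG : 0 < GG Y h := lt_of_lt_of_le one_pos (GG_ge Y h)
  have hG0 : 0 < G := by
    by_contra hcon
    have : GG Y h * G ≤ 0 := mul_nonpos_of_nonneg_of_nonpos hGG.le (not_lt.1 hcon)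
    have h5 : 0 < Real.log M ^ 2 / 2 := by positivity
    linarith
  have h6 : 1 / G ≤ 2 / Real.log M ^ 2 * GG Y h := by
    rw [div_le_iff₀ hG0]
    have : 2 / Real.log M ^ 2 * GG Y h * G = (GG Y h * G) / (Real.log M ^ 2 / 2) := by
      field_simp
    rw [this, le_div_iff₀ (by positivity)]
    linarith
  have h7 : (N : ℝ) * ∑ d ∈ Icc 1 Y, θ d * ∏ p ∈ d.primeFactors, gg h p ≤
      N * (2 / Real.log M ^ 2 * GG Y h) :=
    mul_le_mul_of_nonneg_left (t5.trans h6) (Nat.cast_nonneg _)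
  rw [e2] at e1
  have h8 : (Y : ℝ) = (M : ℝ) ^ 2 := by
    rw [hYd]
    push_cast
    rfl
  rw [h8] at e1
  linarith

/-- `6 ^ ω(d)` is smaller than any power -/
theorem six_le {η : ℝ} (hη : 0 < η) : ∃ K : ℝ, 0 < K ∧ ∀ d : ℕ, 1 ≤ d →
    (6 : ℝ) ^ d.primeFactors.card ≤ K * (d : ℝ) ^ η := by
  classical
  set P := ⌈(6 : ℝ) ^ (1 / η)⌉₊ with hP
  refine ⟨6 ^ (P + 1), by positivity, ?_⟩
  intro d hd
  have h1 : (6 : ℝ) ^ d.primeFactors.card ≤
      ∏ p ∈ d.primeFactors, ((if p ≤ P then (6 : ℝ) else 1) * (p : ℝ) ^ η) := by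
    rw [← prod_const]
    refine prod_le_prod (fun _ _ => by norm_num) fun p hp => ?_
    have hp2 : (1 : ℝ) ≤ p := by
      exact_mod_cast (Nat.prime_of_mem_primeFactors hp).one_lt.le
    split_ifs with h2
    · have := Real.one_le_rpow hp2 hη.le
      linarith
    · rw [one_mul]
      have h3 : (6 : ℝ) ^ (1 / η) ≤ p := by
        refine (Nat.le_ceil _).trans ?_
        exact_mod_cast (not_le.1 h2).le
      have h4 := Real.rpow_le_rpow (by positivity) h3 hη.le
      rw [← Real.rpow_mul (by norm_num), one_div_mul_cancel hη.ne', Real.rpow_one] at h4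
      exact h4
  refine h1.trans ?_
  rw [prod_mul_distrib]
  have h5 : ∏ p ∈ d.primeFactors, (if p ≤ P then (6 : ℝ) else 1) ≤ 6 ^ (P + 1) := by
    rw [← prod_filter, prod_const]
    apply pow_le_pow_right₀ (by norm_num)
    have : (d.primeFactors.filter (fun p => p ≤ P)) ⊆ range (P + 1) := by
      intro p hp
      exact mem_range.2 (Nat.lt_succ_iff.2 (mem_filter.1 hp).2)
    simpa using card_le_card this
  have h6 : ∏ p ∈ d.primeFactors, (p : ℝ) ^ η ≤ (d : ℝ) ^ η := by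
    rw [Real.finsetProd_rpow _ _ (fun p _ => Nat.cast_nonneg p)]
    apply Real.rpow_le_rpow (prod_nonneg fun p _ => Nat.cast_nonneg p) _ hη.le
    have := Nat.le_of_dvd hd (Nat.prod_primeFactors_dvd d)
    have h7 : ((∏ p ∈ d.primeFactors, p : ℕ) : ℝ) ≤ d := by exact_mod_cast this
    rwa [Nat.cast_prod] at h7
  exact mul_le_mul h5 h6 (prod_nonneg fun p _ => by positivity) (by positivity)

theorem six_sum {η : ℝ} (hη : 0 < η) : ∃ K : ℝ, 0 < K ∧ ∀ Y : ℕ,
    ∑ d ∈ Icc 1 Y, (6 : ℝ) ^ d.primeFactors.card ≤ K * (Y * (Y : ℝ) ^ η) := by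
  obtain ⟨K, hK, h⟩ := six_le hη
  refine ⟨K, hK, fun Y => ?_⟩
  calc ∑ d ∈ Icc 1 Y, (6 : ℝ) ^ d.primeFactors.card ≤ ∑ d ∈ Icc 1 Y, K * (Y : ℝ) ^ η := by
        refine sum_le_sum fun d hd => ?_
        obtain ⟨h1, h2⟩ := mem_Icc.1 hd
        refine (h d h1).trans (mul_le_mul_of_nonneg_left ?_ hK.le)
        exact Real.rpow_le_rpow (Nat.cast_nonneg _) (by exact_mod_cast h2) hη.le
    _ = _ := by
        rw [sum_const, Nat.card_Icc, nsmul_eq_mul, Nat.add_sub_cancel]
        ring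

/-- the average of the local correction over even numbers -/
theorem GG_even (Y H : ℕ) : ∑ h ∈ (Ioc 0 H).filter (fun h => 2 ∣ h), GG Y h ≤
    Real.exp (1 / 2) * H := by
  classical
  set S := (Nat.primesBelow (Y + 1)).erase 2 with hS
  have hSp : ∀ p ∈ S, p.Prime := fun p hp =>
    Nat.prime_of_mem_primesBelow (mem_of_mem_erase hp)
  have hS2 : ∀ p ∈ S, p ≠ 2 := fun p hp => ne_of_mem_erase hp
  have hS3 : ∀ p ∈ S, 3 ≤ p := fun p hp => by
    have h1 := (hSp p hp).two_le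
    have h2 := hS2 p hp
    omega
  have e1 : ∀ h ∈ (Ioc 0 H).filter (fun h => 2 ∣ h), GG Y h ≤ 2 * ∑ T ∈ S.powerset,
      (∏ p ∈ T, (1 / ((p : ℝ) - 1))) * (if (∏ p ∈ T, p) ∣ h then 1 else 0) := by
    intro h hh
    have h2h := (mem_filter.1 hh).2
    have e0 : GG Y h ≤ 2 * ∏ p ∈ S, (if p ∣ h then (1 - 1 / (p : ℝ))⁻¹ else 1) := by
      unfold GG
      by_cases h2 : 2 ∈ Nat.primesBelow (Y + 1)
      · rw [← mul_prod_erase _ _ h2, if_pos h2h]
        have : (1 - 1 / ((2 : ℕ) : ℝ))⁻¹ = 2 := by norm_num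
        rw [this]
      · rw [hS, erase_eq_of_notMem h2]
        have h3 := GG_ge Y h
        unfold GG at h3
        linarith
    refine e0.trans (mul_le_mul_of_nonneg_left (le_of_eq ?_) (by norm_num))
    have e2 : ∀ p ∈ S, (if p ∣ h then (1 - 1 / (p : ℝ))⁻¹ else 1) =
        1 + (if p ∣ h then 1 / ((p : ℝ) - 1) else 0) := by
      intro p hp
      have h2 : (3 : ℝ) ≤ p := by exact_mod_cast hS3 p hp
      split_ifs
      · have h3 : (p : ℝ) - 1 ≠ 0 := by linarith
        have h4 : (p : ℝ) ≠ 0 := by linarith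
        field_simp
        ring
      · ring
    rw [prod_congr rfl e2, prod_one_add]
    refine sum_congr rfl (fun T hT => ?_)
    have hpr : ∀ p ∈ T, p.Prime := fun p hp => hSp p (mem_powerset.1 hT hp)
    by_cases hd : (∏ p ∈ T, p) ∣ h
    · rw [if_pos hd, mul_one]
      exact prod_congr rfl (fun p hp => by
        rw [if_pos ((dvd_prod_of_mem _ hp).trans hd)])
    · rw [if_neg hd, mul_zero]
      have : ∃ p ∈ T, ¬ p ∣ h := by
        by_contra hcon
        push Not at hcon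
        apply hd
        exact prod_primes_dvd h (fun p hp => (hpr p hp).prime) hcon
      obtain ⟨p, hp, hp'⟩ := this
      exact prod_eq_zero hp (by rw [if_neg hp'])
  refine (sum_le_sum e1).trans ?_
  rw [← mul_sum, sum_comm]
  have e3 : ∀ T ∈ S.powerset,
      ∑ h ∈ (Ioc 0 H).filter (fun h => 2 ∣ h), (∏ p ∈ T, (1 / ((p : ℝ) - 1))) *
        (if (∏ p ∈ T, p) ∣ h then (1 : ℝ) else 0) ≤
      H / 2 * ∏ p ∈ T, (1 / ((p : ℝ) * (p - 1))) := by
    intro T hT
    have hpr : ∀ p ∈ T, p.Prime := fun p hp => hSp p (mem_powerset.1 hT hp)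
    rw [← mul_sum, sum_boole, filter_filter]
    have hc : (((Ioc 0 H).filter (fun h => 2 ∣ h ∧ (∏ p ∈ T, p) ∣ h)).card : ℝ) ≤
        H / (2 * (∏ p ∈ T, (p : ℝ))) := by
      have hsub : (Ioc 0 H).filter (fun h => 2 ∣ h ∧ (∏ p ∈ T, p) ∣ h) ⊆
          (Ioc 0 H).filter (fun h => 2 * (∏ p ∈ T, p) ∣ h) := by
        intro h hh
        obtain ⟨h1, h2, h3⟩ := mem_filter.1 hh
        refine mem_filter.2 ⟨h1, Nat.Coprime.mul_dvd_of_dvd_of_dvd ?_ h2 h3⟩
        apply Nat.Coprime.prod_right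
        intro p hp
        exact (Nat.coprime_primes Nat.prime_two (hpr p hp)).2
          (hS2 p (mem_powerset.1 hT hp)).symm
      have h4 := card_le_card hsub
      rw [Nat.Ioc_filter_dvd_card_eq_div] at h4
      have h5 := Nat.cast_div_le (α := ℝ) (m := H) (n := 2 * ∏ p ∈ T, p)
      push_cast at h5
      refine le_trans ?_ h5
      exact_mod_cast h4
    have h0 : 0 ≤ ∏ p ∈ T, (1 / ((p : ℝ) - 1)) := prod_nonneg (fun p hp => by
      have h2 : (2 : ℝ) ≤ p := by exact_mod_cast (hpr p hp).two_le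
      have : 0 ≤ (p : ℝ) - 1 := by linarith
      positivity)
    refine (mul_le_mul_of_nonneg_left hc h0).trans (le_of_eq ?_)
    have e4 : ∏ p ∈ T, (1 / ((p : ℝ) * (p - 1))) =
        (∏ p ∈ T, (1 / ((p : ℝ) - 1))) * (∏ p ∈ T, (p : ℝ))⁻¹ := by
      rw [← prod_inv_distrib, ← prod_mul_distrib]
      refine prod_congr rfl (fun p _ => ?_)
      rw [one_div, one_div, mul_inv]
      ring
    rw [e4, div_eq_mul_inv, mul_inv]
    ring
  refine (mul_le_mul_of_nonneg_left (sum_le_sum e3) (by norm_num)).trans ?_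
  rw [← mul_sum, ← prod_one_add]
  have e5 : ∏ p ∈ S, (1 + 1 / ((p : ℝ) * (p - 1))) ≤
      ∏ p ∈ S, Real.exp (1 / ((p : ℝ) * (p - 1))) := by
    refine prod_le_prod (fun p hp => ?_) (fun p _ => ?_)
    · have h2 : (3 : ℝ) ≤ p := by exact_mod_cast hS3 p hp
      have : 0 ≤ (p : ℝ) - 1 := by linarith
      positivity
    · rw [add_comm]
      exact Real.add_one_le_exp _
  have e6 : ∑ p ∈ S, 1 / ((p : ℝ) * (p - 1)) ≤
      ∑ p ∈ Ico 3 (Y + 3), 1 / ((p : ℝ) * (p - 1)) := by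
    apply sum_le_sum_of_subset_of_nonneg
    · intro p hp
      have h2 := Nat.lt_of_mem_primesBelow (mem_of_mem_erase hp)
      exact mem_Ico.2 ⟨hS3 p hp, by omega⟩
    · intro p hp _
      have h2 : (3 : ℝ) ≤ p := by exact_mod_cast (mem_Ico.1 hp).1
      have : 0 ≤ (p : ℝ) - 1 := by linarith
      positivity
  have e7 : ∀ M : ℕ, ∑ p ∈ Ico 3 (M + 3), 1 / ((p : ℝ) * (p - 1)) =
      1 / 2 - 1 / ((M : ℝ) + 2) := by
    intro M
    induction M with
    | zero => norm_num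
    | succ M ih =>
      rw [show M + 1 + 3 = (M + 3) + 1 from rfl, sum_Ico_succ_top (by omega), ih]
      push_cast
      have h1 : (M : ℝ) + 2 ≠ 0 := by positivity
      have h2 : (M : ℝ) + 3 ≠ 0 := by positivity
      have h3 : (M : ℝ) + 1 + 2 ≠ 0 := by positivity
      have h4 : (M : ℝ) + 3 - 1 ≠ 0 := by
        have : (M : ℝ) + 3 - 1 = M + 2 := by ring
        rw [this]
        exact h1
      field_simp
      ring
  have e8 : ∏ p ∈ S, (1 + 1 / ((p : ℝ) * (p - 1))) ≤ Real.exp (1 / 2) := by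
    refine e5.trans ?_
    rw [← Real.exp_sum]
    apply Real.exp_le_exp.2
    refine e6.trans ?_
    rw [e7]
    have : 0 ≤ 1 / ((Y : ℝ) + 2) := by positivity
    linarith
  have h0 : (0 : ℝ) ≤ H := Nat.cast_nonneg _
  calc 2 * ((H : ℝ) / 2 * ∏ p ∈ S, (1 + 1 / ((p : ℝ) * (p - 1)))) =
      (∏ p ∈ S, (1 + 1 / ((p : ℝ) * (p - 1)))) * H := by ring
    _ ≤ Real.exp (1 / 2) * H := mul_le_mul_of_nonneg_right e8 h0

theorem PP_odd {N h : ℕ} (h2 : ¬ 2 ∣ h) : ((PP N h).card : ℝ) ≤ 1 := by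
  have b1 : (PP N h).card ≤ 1 := by
    rw [card_le_one]
    have : ∀ a ∈ PP N h, a = 2 := by
      intro a ha
      obtain ⟨_, ha1, ha2⟩ := mem_filter.1 ha
      rcases ha1.eq_two_or_odd with h3 | h3
      · exact h3
      · rcases ha2.eq_two_or_odd with h4 | h4
        · have := ha1.two_le
          omega
        · omega
    intro a ha b hb
    rw [this a ha, this b hb]
  exact_mod_cast b1

/-- the analytic condition on `L = log N` -/
theorem L_cond (K : ℝ) (hK : 0 < K) : ∀ᶠ N : ℕ in atTop,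
    1000 ≤ Real.log N ∧ (1 + K) * Real.log N ^ 2 ≤ 3 / 100 * Real.exp (Real.log N / 1000) := by
  have hL : Tendsto (fun N : ℕ => Real.log (N : ℝ)) atTop atTop :=
    Real.tendsto_log_atTop.comp tendsto_natCast_atTop_atTop
  have h1 : Tendsto (fun L : ℝ => (L / 1000) ^ 2 * Real.exp (-(L / 1000))) atTop (nhds 0) :=
    (Real.tendsto_pow_mul_exp_neg_atTop_nhds_zero 2).comp
      (tendsto_id.atTop_div_const (by norm_num : (0 : ℝ) < 1000))
  have hc : (0 : ℝ) < 3 / 100 / (1000 ^ 2 * (1 + K)) := by positivity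
  have h2 := h1.eventually (gt_mem_nhds hc)
  have h3 := hL.eventually (h2.and (eventually_ge_atTop (1000 : ℝ)))
  filter_upwards [h3] with N hN
  obtain ⟨h4, h5⟩ := hN
  refine ⟨h5, ?_⟩
  set L := Real.log (N : ℝ) with hLd
  rw [lt_div_iff₀ (by positivity)] at h4
  have h6 : Real.exp (-(L / 1000)) * Real.exp (L / 1000) = 1 := by
    rw [← Real.exp_add]
    simp
  have h7 := mul_le_mul_of_nonneg_right h4.le (Real.exp_pos (L / 1000)).le
  have h8 : (L / 1000) ^ 2 * Real.exp (-(L / 1000)) * (1000 ^ 2 * (1 + K)) *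
      Real.exp (L / 1000) = (1 + K) * L ^ 2 * (Real.exp (-(L / 1000)) * Real.exp (L / 1000)) := by
    ring
  rw [h8, h6, mul_one] at h7
  exact h7

theorem pair_even : ∀ᶠ N : ℕ in atTop, 1000 ≤ Real.log N ∧
    Real.log N ^ 2 ≤ 3 / 100 * N ∧ ∃ Y : ℕ, ∀ h : ℕ, 2 ∣ h →
    ((PP N h).card : ℝ) ≤ 81 / 10 * (N / Real.log N ^ 2) * GG Y h := by
  obtain ⟨K, hK, hsix⟩ := six_sum (show (0 : ℝ) < 1 / 1000 by norm_num)
  filter_upwards [L_cond K hK, eventually_ge_atTop 1] with N hN hN1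
  obtain ⟨hL1, hL2⟩ := hN
  set L := Real.log (N : ℝ) with hLd
  have hN0 : (0 : ℝ) < N := by exact_mod_cast hN1
  have hNexp : Real.exp L = N := Real.exp_log hN0
  have hL0 : 0 < L := by linarith
  have hNL : L ^ 2 ≤ 3 / 100 * N := by
    have h1 : Real.exp (L / 1000) ≤ Real.exp L := Real.exp_le_exp.2 (by linarith)
    rw [hNexp] at h1
    have h2 : 0 ≤ K * L ^ 2 := by positivity
    linarith
  refine ⟨hL1, hNL, ⌊Real.exp (499 / 1000 * L)⌋₊ ^ 2, ?_⟩
  intro h hh
  set M := ⌊Real.exp (499 / 1000 * L)⌋₊ with hM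
  have hMle : (M : ℝ) ≤ Real.exp (499 / 1000 * L) := Nat.floor_le (Real.exp_pos _).le
  have hMlt : Real.exp (499 / 1000 * L) < M + 1 := Nat.lt_floor_add_one _
  have hsplit : Real.exp (499 / 1000 * L) =
      Real.exp (498 / 1000 * L) * Real.exp (1 / 1000 * L) := by
    rw [← Real.exp_add]
    congr 1
    ring
  have h1 : 498 / 1000 * L + 1 ≤ Real.exp (498 / 1000 * L) := Real.add_one_le_exp _
  have h2 : 1 / 1000 * L + 1 ≤ Real.exp (1 / 1000 * L) := Real.add_one_le_exp _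
  have hMge : Real.exp (498 / 1000 * L) ≤ M := by
    have h3 : 2 * Real.exp (498 / 1000 * L) ≤ Real.exp (499 / 1000 * L) := by
      rw [hsplit, mul_comm]
      exact mul_le_mul_of_nonneg_left (by linarith) (Real.exp_pos _).le
    linarith
  have hM2 : 2 ≤ M := by
    have : (2 : ℝ) ≤ M := by linarith
    exact_mod_cast this
  have hlogM : 498 / 1000 * L ≤ Real.log M := by
    have := Real.log_le_log (Real.exp_pos _) hMge
    rwa [Real.log_exp] at this
  have hraw := pair_raw (N := N) (h := h) hh hM2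
  have hGG := GG_ge (M ^ 2) h
  set Gv := GG (M ^ 2) h with hGv
  have e1 : (M : ℝ) ^ 2 ≤ Real.exp (998 / 1000 * L) := by
    calc (M : ℝ) ^ 2 ≤ Real.exp (499 / 1000 * L) ^ 2 :=
          pow_le_pow_left₀ (Nat.cast_nonneg _) hMle 2
      _ = _ := by
          rw [← Real.exp_nat_mul]
          congr 1
          push_cast
          ring
  have e2 : Real.exp (998 / 1000 * L) ≤ Real.exp (999 / 1000 * L) :=
    Real.exp_le_exp.2 (by linarith)
  have e3 : ∑ d ∈ Icc 1 (M ^ 2), (6 : ℝ) ^ d.primeFactors.card ≤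
      K * Real.exp (999 / 1000 * L) := by
    refine (hsix (M ^ 2)).trans (mul_le_mul_of_nonneg_left ?_ hK.le)
    push_cast
    calc (M : ℝ) ^ 2 * ((M : ℝ) ^ 2) ^ (1 / 1000 : ℝ) ≤
        Real.exp (998 / 1000 * L) * (Real.exp (998 / 1000 * L)) ^ (1 / 1000 : ℝ) := by
          apply mul_le_mul e1 _ (by positivity) (Real.exp_pos _).le
          exact Real.rpow_le_rpow (by positivity) e1 (by norm_num)
      _ = Real.exp (998 / 1000 * L + 998 / 1000 * L * (1 / 1000)) := by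
          rw [Real.exp_add, Real.exp_mul (998 / 1000 * L) (1 / 1000)]
      _ ≤ Real.exp (999 / 1000 * L) := Real.exp_le_exp.2 (by linarith)
  have e4 : (1 + K) * Real.exp (999 / 1000 * L) ≤ 3 / 100 * (N / L ^ 2) := by
    rw [mul_div_assoc', le_div_iff₀ (by positivity)]
    have h5 := mul_le_mul_of_nonneg_right hL2 (Real.exp_pos (999 / 1000 * L)).le
    have h6 : Real.exp (L / 1000) * Real.exp (999 / 1000 * L) = N := by
      rw [← Real.exp_add, ← hNexp]
      congr 1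
      ring
    calc (1 + K) * Real.exp (999 / 1000 * L) * L ^ 2 =
        (1 + K) * L ^ 2 * Real.exp (999 / 1000 * L) := by ring
      _ ≤ 3 / 100 * Real.exp (L / 1000) * Real.exp (999 / 1000 * L) := h5
      _ = 3 / 100 * N := by rw [mul_assoc, h6]
  have hlogM0 : 0 < Real.log M := by linarith
  have e5 : 2 / Real.log M ^ 2 ≤ 807 / 100 / L ^ 2 := by
    rw [div_le_div_iff₀ (by positivity) (by positivity)]
    have : (498 / 1000 * L) ^ 2 ≤ Real.log M ^ 2 := pow_le_pow_left₀ (by positivity) hlogM 2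
    nlinarith
  have e6 : (N : ℝ) * (2 / Real.log M ^ 2 * Gv) ≤ 807 / 100 * (N / L ^ 2) * Gv := by
    calc (N : ℝ) * (2 / Real.log M ^ 2 * Gv) ≤ N * (807 / 100 / L ^ 2 * Gv) := by
          apply mul_le_mul_of_nonneg_left _ hN0.le
          exact mul_le_mul_of_nonneg_right e5 (by linarith)
      _ = _ := by ring
  have hNL2 : 0 ≤ (N : ℝ) / L ^ 2 := by positivity
  have e7 : (N : ℝ) / L ^ 2 ≤ N / L ^ 2 * Gv := by nlinarith
  have e8 : (M : ℝ) ^ 2 + ∑ d ∈ Icc 1 (M ^ 2), (6 : ℝ) ^ d.primeFactors.card ≤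
      3 / 100 * (N / L ^ 2) := by
    refine le_trans ?_ e4
    linarith
  calc ((PP N h).card : ℝ) ≤ 807 / 100 * (N / L ^ 2) * Gv + 3 / 100 * (N / L ^ 2 * Gv) := by
        linarith
    _ = 81 / 10 * (N / L ^ 2) * Gv := by ring

theorem exp_half : Real.exp (1 / 2) ≤ 165 / 100 := by
  have h1 : Real.exp (1 / 2) ^ 2 = Real.exp 1 := by
    rw [← Real.exp_nat_mul]
    norm_num
  have h2 := Real.exp_one_lt_d9
  have h3 := Real.exp_pos (1 / 2 : ℝ)
  nlinarith

/-- **pairs of primes at distance at most `H`**, explicit constant -/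
theorem pair_sum_explicit : ∀ᶠ N : ℕ in atTop, ∀ H : ℕ,
    ∑ h ∈ Ioc 0 H, ((PP N h).card : ℝ) ≤ 27 / 2 * H * (N / Real.log N ^ 2) := by
  filter_upwards [pair_even] with N hN
  obtain ⟨hL1, hNL, Y, hY⟩ := hN
  intro H
  set L := Real.log (N : ℝ) with hLd
  have hL0 : 0 < L := by linarith
  have h1 : ∀ h ∈ Ioc 0 H, ((PP N h).card : ℝ) ≤
      81 / 10 * (N / L ^ 2) * (if 2 ∣ h then GG Y h else 0) + 3 / 100 * (N / L ^ 2) := by
    intro h _
    have h2 : (0 : ℝ) ≤ 3 / 100 * (N / L ^ 2) := by positivity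
    split_ifs with hd
    · have := hY h hd
      linarith
    · have h3 := PP_odd (N := N) hd
      have h4 : (1 : ℝ) ≤ 3 / 100 * (N / L ^ 2) := by
        rw [mul_div_assoc', le_div_iff₀ (by positivity)]
        linarith
      linarith
  have h5 : ∑ h ∈ Ioc 0 H, (if 2 ∣ h then GG Y h else 0) =
      ∑ h ∈ (Ioc 0 H).filter (fun h => 2 ∣ h), GG Y h := by
    rw [sum_filter]
  have h6 := GG_even Y H
  have h7 := exp_half
  have hH : (0 : ℝ) ≤ H := Nat.cast_nonneg _
  have hNL2 : 0 ≤ (N : ℝ) / L ^ 2 := by positivity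
  calc ∑ h ∈ Ioc 0 H, ((PP N h).card : ℝ) ≤ ∑ h ∈ Ioc 0 H,
        (81 / 10 * (N / L ^ 2) * (if 2 ∣ h then GG Y h else 0) + 3 / 100 * (N / L ^ 2)) :=
        sum_le_sum h1
    _ = 81 / 10 * (N / L ^ 2) * ∑ h ∈ (Ioc 0 H).filter (fun h => 2 ∣ h), GG Y h +
        H * (3 / 100 * (N / L ^ 2)) := by
        rw [sum_add_distrib, ← mul_sum, h5, sum_const, Nat.card_Ioc, Nat.sub_zero, nsmul_eq_mul]
    _ ≤ 81 / 10 * (N / L ^ 2) * (165 / 100 * H) + H * (3 / 100 * (N / L ^ 2)) := by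
        have h8 : ∑ h ∈ (Ioc 0 H).filter (fun h => 2 ∣ h), GG Y h ≤ 165 / 100 * H :=
          h6.trans (mul_le_mul_of_nonneg_right h7 hH)
        have h9 := mul_le_mul_of_nonneg_left h8 (show 0 ≤ 81 / 10 * ((N : ℝ) / L ^ 2) by positivity)
        linarith
    _ = (13365 / 1000 + 3 / 100) * (H * (N / L ^ 2)) := by ring
    _ ≤ 27 / 2 * (H * (N / L ^ 2)) := mul_le_mul_of_nonneg_right (by norm_num) (by positivity)
    _ = _ := by ring

end Pool.Agent.Lib_helper5.RUN
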