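import Pool.Agent.Lib_helper5.RUN.Count
import Pool.Agent.Lib_helper8.PENT.BH

/-!
# Runs of primes: an upper bound for the number of pairs `n, n + h` of primes, on average over `h`
-/

set_option autoImplicit false

namespace Pool.Agent.Lib_helper5.RUN

open Finset

theorem mertens_up {N : ℕ} (hN : 2 ≤ N) :
    ∏ p ∈ Nat.primesBelow N, (1 - 1 / (p : ℝ)) ≤ 1 / Real.log N := by
  let f : ℕ →* ℝ :=
    { toFun := fun n => (n : ℝ)⁻¹
      map_one' := by simp
      map_mul' := fun a b => by simp [mul_comm] }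
  have hf : ∀ {p : ℕ}, p.Prime → ‖f p‖ < 1 := by
    intro p hp
    have h2 : (2 : ℝ) ≤ p := by exact_mod_cast hp.two_le
    change ‖(p : ℝ)⁻¹‖ < 1
    rw [norm_inv, Real.norm_of_nonneg (by linarith)]
    exact inv_lt_one_of_one_lt₀ (by linarith)
  obtain ⟨hsum, hhas⟩ :=
    EulerProduct.summable_and_hasSum_smoothNumbers_prod_primesBelow_geometric hf N
  have hN1 : (0 : ℝ) < Real.log N := Real.log_pos (by exact_mod_cast hN)
  have hlow : Real.log N ≤ ∏ p ∈ Nat.primesBelow N, (1 - f p)⁻¹ := by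
    rw [← hhas.tsum_eq]
    have h1 : Real.log N ≤ ∑ n ∈ Finset.Ico 1 N, (n : ℝ)⁻¹ := by
      have h2 := log_add_one_le_harmonic (N - 1)
      rw [Nat.sub_add_cancel (by omega)] at h2
      refine h2.trans (le_of_eq ?_)
      rw [harmonic]
      push_cast
      rw [Finset.sum_Ico_eq_sum_range]
      apply Finset.sum_congr rfl
      intro i _
      push_cast
      rw [add_comm]
    refine h1.trans ?_
    have hsm : Summable (fun m : Nat.smoothNumbers N => f m) := hhas.summable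
    let e : {n // n ∈ Finset.Ico 1 N} → Nat.smoothNumbers N := fun n =>
      ⟨n.1, Nat.mem_smoothNumbers_of_lt (Finset.mem_Ico.1 n.2).1 (Finset.mem_Ico.1 n.2).2⟩
    have hinj : Function.Injective e := fun a b hab => Subtype.ext (congrArg (fun x => x.1) hab)
    have h3 : ∑ n ∈ Finset.Ico 1 N, (n : ℝ)⁻¹ =
        ∑ m ∈ (Finset.univ.map ⟨e, hinj⟩ : Finset (Nat.smoothNumbers N)), f m := by
      rw [Finset.sum_map]
      exact (Finset.sum_coe_sort (Finset.Ico 1 N) (fun n => (n : ℝ)⁻¹)).symm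
    rw [h3]
    apply hsm.sum_le_tsum
    intro m _
    exact inv_nonneg.2 (Nat.cast_nonneg _)
  have hprod : ∏ p ∈ Nat.primesBelow N, (1 - f p)⁻¹ =
      (∏ p ∈ Nat.primesBelow N, (1 - 1 / (p : ℝ)))⁻¹ := by
    rw [← Finset.prod_inv_distrib]
    apply Finset.prod_congr rfl
    intro p _
    rw [one_div]
    rfl
  rw [hprod] at hlow
  have hpos : 0 < ∏ p ∈ Nat.primesBelow N, (1 - 1 / (p : ℝ)) := by
    have : 0 < (∏ p ∈ Nat.primesBelow N, (1 - 1 / (p : ℝ)))⁻¹ := lt_of_lt_of_le hN1 hlow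
    exact inv_pos.1 this
  rw [le_div_iff₀ hN1]
  calc (∏ p ∈ Nat.primesBelow N, (1 - 1 / (p : ℝ))) * Real.log N
      ≤ (∏ p ∈ Nat.primesBelow N, (1 - 1 / (p : ℝ))) *
        (∏ p ∈ Nat.primesBelow N, (1 - 1 / (p : ℝ)))⁻¹ := mul_le_mul_of_nonneg_left hlow hpos.le
    _ = 1 := mul_inv_cancel₀ hpos.ne'

/-- the local correction -/
noncomputable def GG (Y h : ℕ) : ℝ :=
  ∏ p ∈ Nat.primesBelow (Y + 1), if p ∣ h then (1 - 1 / (p : ℝ))⁻¹ else 1

theorem half_le {p : ℕ} (hp : p.Prime) : 1 / 2 ≤ 1 - 1 / (p : ℝ) := by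
  have h2 : (2 : ℝ) ≤ p := by exact_mod_cast hp.two_le
  have := one_div_le_one_div_of_le (by norm_num : (0 : ℝ) < 2) h2
  linarith

theorem inv_ge {p : ℕ} (hp : p.Prime) : 1 ≤ (1 - 1 / (p : ℝ))⁻¹ := by
  have h := half_le hp
  have h2 : (0 : ℝ) < p := by exact_mod_cast hp.pos
  have h3 : 0 < 1 / (p : ℝ) := by positivity
  exact (one_le_inv₀ (by linarith)).2 (by linarith)

theorem GG_ge (Y h : ℕ) : 1 ≤ GG Y h := by
  unfold GG
  calc (1 : ℝ) = ∏ p ∈ Nat.primesBelow (Y + 1), 1 := by simp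
    _ ≤ _ := prod_le_prod (fun _ _ => zero_le_one) (fun p hp => by
      have := inv_ge (Nat.prime_of_mem_primesBelow hp)
      split_ifs
      · exact this
      · exact le_rfl)

theorem gg_bounds {h p : ℕ} (hp : p.Prime) (hh : 2 ∣ h) :
    0 ≤ gg h p ∧ gg h p ≤ 1 - 1 / 3 ∧ gg h p ≤ 2 / p := by
  have h0 : (0 : ℝ) < p := by exact_mod_cast hp.pos
  have h1 := half_le hp
  unfold gg
  split_ifs with hd
  · refine ⟨by positivity, by linarith, ?_⟩
    gcongr
    norm_num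
  · have hp3 : 3 ≤ p := by
      rcases hp.eq_two_or_odd with h2 | h2
      · exact absurd (h2 ▸ hh) hd
      · have := hp.two_le
        omega
    have hp3' : (3 : ℝ) ≤ p := by exact_mod_cast hp3
    refine ⟨by positivity, ?_, le_rfl⟩
    rw [div_le_iff₀ h0]
    linarith

theorem one_sub_gg {h p : ℕ} (hp : p.Prime) :
    1 - gg h p ≤ (1 - 1 / (p : ℝ)) * (1 - 1 / (p : ℝ)) *
      (if p ∣ h then (1 - 1 / (p : ℝ))⁻¹ else 1) := by
  have h1 := half_le hp
  have h0 : (0 : ℝ) < p := by exact_mod_cast hp.pos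
  unfold gg
  split_ifs with hd
  · rw [mul_assoc, mul_inv_cancel₀ (by linarith), mul_one]
  · have e : (2 : ℝ) / p = 1 / p + 1 / p := by ring
    rw [e]
    nlinarith [mul_self_nonneg (1 / (p : ℝ))]

theorem prod_one_sub_gg {Y h : ℕ} (hY : 1 ≤ Y) (hh : 2 ∣ h) :
    ∏ p ∈ Nat.primesBelow (Y + 1), (1 - gg h p) ≤
      (1 / Real.log ((Y + 1 : ℕ) : ℝ)) ^ 2 * GG Y h := by
  have h1 : ∏ p ∈ Nat.primesBelow (Y + 1), (1 - gg h p) ≤
      ∏ p ∈ Nat.primesBelow (Y + 1), ((1 - 1 / (p : ℝ)) * (1 - 1 / (p : ℝ)) *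
      (if p ∣ h then (1 - 1 / (p : ℝ))⁻¹ else 1)) := by
    refine prod_le_prod (fun p hp => ?_) (fun p hp => one_sub_gg (Nat.prime_of_mem_primesBelow hp))
    have := (gg_bounds (Nat.prime_of_mem_primesBelow hp) hh).2.1
    linarith
  refine h1.trans ?_
  rw [prod_mul_distrib, prod_mul_distrib]
  have h2 := mertens_up (N := Y + 1) (by omega)
  have h3 : 0 ≤ ∏ p ∈ Nat.primesBelow (Y + 1), (1 - 1 / (p : ℝ)) := prod_nonneg (fun p hp => by
    have := half_le (Nat.prime_of_mem_primesBelow hp)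
    linarith)
  have h4 : 0 ≤ GG Y h := zero_le_one.trans (GG_ge Y h)
  change _ * GG Y h ≤ _
  apply mul_le_mul_of_nonneg_right _ h4
  rw [pow_two]
  exact mul_le_mul h2 h2 h3 (h3.trans h2)

theorem err_bound {k N h Y : ℕ} {T : Finset ℕ} (hT : T ⊆ Nat.primesBelow (Y + 1))
    (hprod : ∏ p ∈ T, p ≤ Y ^ k) :
    |∑ o ∈ Ioc 0 N, (1 : ℝ) * ∏ p ∈ T, xx h o p - N * ∏ p ∈ T, gg h p| ≤ (Y : ℝ) ^ k := by
  have hp : ∀ p ∈ T, p.Prime := fun p hp => Nat.prime_of_mem_primesBelow (hT hp)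
  have hb := AA_bound (N := N) (h := h) T hp 1 1 one_pos one_pos (Nat.coprime_one_right 1)
    (fun p _ => ⟨Nat.coprime_one_right p, Nat.coprime_one_right p⟩)
  have e : AA N h 1 1 T = ∑ o ∈ Ioc 0 N, (1 : ℝ) * ∏ p ∈ T, xx h o p := by
    unfold AA
    refine sum_congr rfl (fun n _ => ?_)
    rw [if_pos ⟨one_dvd _, one_dvd _⟩, one_mul]
  rw [e] at hb
  have h2 : (2 : ℝ) ^ T.card ≤ (Y : ℝ) ^ k := by
    have h3 : 2 ^ T.card ≤ ∏ p ∈ T, p := by
      rw [← prod_const]
      exact prod_le_prod' (fun p hp' => (hp p hp').two_le)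
    exact_mod_cast h3.trans hprod
  refine le_trans (le_of_eq ?_) (hb.trans h2)
  simp

/-- the number of `n ≤ N` with `n`, `n + h` prime -/
def PP (N h : ℕ) : Finset ℕ := (Ioc 0 N).filter (fun n => n.Prime ∧ (n + h).Prime)

theorem PP_le {N h Y : ℕ} (hh : 1 ≤ h) :
    ((PP N h).card : ℝ) ≤ Y +
      ∑ o ∈ Ioc 0 N, (1 : ℝ) * ∏ p ∈ Nat.primesBelow (Y + 1), (1 - xx h o p) := by
  have h1 : ((PP N h).card : ℝ) = ∑ o ∈ Ioc 0 N, if (o.Prime ∧ (o + h).Prime) then (1 : ℝ) else 0 := by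
    rw [sum_boole]
    rfl
  have h2 : (Y : ℝ) ≥ ∑ o ∈ Ioc 0 N, if o ≤ Y then (1 : ℝ) else 0 := by
    rw [sum_boole]
    have : ((Ioc 0 N).filter (fun o => o ≤ Y)).card ≤ (Ioc 0 Y).card := by
      apply card_le_card
      intro o ho
      rw [mem_filter, mem_Ioc] at ho
      exact mem_Ioc.2 ⟨ho.1.1, ho.2⟩
    rw [Nat.card_Ioc, Nat.sub_zero] at this
    exact_mod_cast this
  rw [h1]
  refine le_trans ?_ (add_le_add h2 le_rfl)
  rw [← sum_add_distrib]
  apply sum_le_sum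
  intro o ho
  have hx : ∀ p, 0 ≤ 1 - xx h o p := fun p => by
    unfold xx
    split_ifs <;> norm_num
  have hP : 0 ≤ ∏ p ∈ Nat.primesBelow (Y + 1), (1 - xx h o p) := prod_nonneg (fun p _ => hx p)
  by_cases hoY : o ≤ Y
  · rw [if_pos hoY]
    split_ifs <;> linarith
  · rw [if_neg hoY]
    split_ifs with hpr
    · have : ∏ p ∈ Nat.primesBelow (Y + 1), (1 - xx h o p) = 1 := by
        apply prod_eq_one
        intro p hp
        have hpp := Nat.prime_of_mem_primesBelow hp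
        have hpY := Nat.lt_of_mem_primesBelow hp
        have : xx h o p = 0 := by
          unfold xx
          rw [if_neg]
          intro hd
          rcases hpp.dvd_mul.1 hd with h' | h'
          · have := (Nat.prime_dvd_prime_iff_eq hpp hpr.1).1 h'
            omega
          · have := (Nat.prime_dvd_prime_iff_eq hpp hpr.2).1 h'
            omega
        rw [this, sub_zero]
      rw [this]
      norm_num
    · linarith

theorem quad_le {t : ℝ} (ht : 0 ≤ t) : t ^ 2 ≤ 8 * Real.exp (t / 2) := by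
  have := Real.quadratic_le_exp_of_nonneg (x := t / 2) (by linarith)
  nlinarith

/-- **pairs of primes**, with the local correction -/
theorem pair_count : ∃ (A : ℝ) (Y : ℕ → ℕ), 0 < A ∧ ∀ N h : ℕ, 2 ≤ N → 1 ≤ h →
    ((PP N h).card : ℝ) ≤ A * (N / Real.log N ^ 2) * GG (Y N) h := by
  obtain ⟨k, hk⟩ := Pool.Agent.PENT.brun_primes 2 3 (by norm_num) (by norm_num)
  refine ⟨16 + 32 * (k + 1) ^ 2, fun N => ⌊Real.exp (Real.log N / (4 * (k + 1)))⌋₊,
    by positivity, ?_⟩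
  intro N h hN hh
  have hN1 : (1 : ℝ) < N := by exact_mod_cast (show 1 < N by omega)
  have hN0 : (0 : ℝ) < N := by linarith
  set t := Real.log N with ht
  have htp : 0 < t := Real.log_pos hN1
  set L := t / (4 * ((k : ℝ) + 1)) with hL
  have hk0 : (0 : ℝ) < 4 * ((k : ℝ) + 1) := by positivity
  have hLp : 0 < L := div_pos htp hk0
  set Y := ⌊Real.exp L⌋₊ with hYd
  have hexp1 : 1 ≤ Real.exp L := Real.one_le_exp hLp.le
  have hY1 : 1 ≤ Y := Nat.le_floor (by simpa using hexp1)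
  have hYle : (Y : ℝ) ≤ Real.exp L := Nat.floor_le (Real.exp_pos L).le
  have hYlt : Real.exp L < ((Y + 1 : ℕ) : ℝ) := by
    have := Nat.lt_floor_add_one (Real.exp L)
    push_cast
    exact this
  have hlogY : L ≤ Real.log ((Y + 1 : ℕ) : ℝ) := by
    have := Real.log_le_log (Real.exp_pos L) hYlt.le
    rwa [Real.log_exp] at this
  set s := Real.exp (t / 2) with hs
  have hs0 : 0 < s := Real.exp_pos _
  have hs1 : 1 ≤ s := Real.one_le_exp (by linarith)
  have hss : s * s = N := by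
    rw [hs, ← Real.exp_add, add_halves, ht, Real.exp_log hN0]
  have hsN : s ≤ 8 * (N / t ^ 2) := by
    rw [mul_div_assoc', le_div_iff₀ (by positivity), ← hss]
    nlinarith [quad_le htp.le]
  have hG := GG_ge Y h
  have hNt : 0 ≤ (N : ℝ) / t ^ 2 := by positivity
  have hNG : (N : ℝ) / t ^ 2 ≤ N / t ^ 2 * GG Y h := by nlinarith
  have hkk : 0 ≤ 32 * ((k : ℝ) + 1) ^ 2 := by positivity
  by_cases h2 : 2 ∣ h
  · have b1 := PP_le (N := N) (Y := Y) hh
    have b2 := (hk ℕ (Ioc 0 N) (fun _ => 1) (xx h) (Nat.primesBelow (Y + 1)) Y (gg h) N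
      ((Y : ℝ) ^ k) hY1 (fun _ _ => zero_le_one)
      (fun o _ p _ => by
        unfold xx
        split_ifs <;> norm_num)
      (fun p hp => ⟨Nat.prime_of_mem_primesBelow hp,
        Nat.lt_succ_iff.1 (Nat.lt_of_mem_primesBelow hp)⟩)
      (fun p hp => gg_bounds (Nat.prime_of_mem_primesBelow hp) h2)
      (Nat.cast_nonneg _) (by positivity) (fun T hT hprod => err_bound hT hprod)).2
    have b3 := prod_one_sub_gg (Y := Y) (h := h) hY1 h2
    have b4 : (1 / Real.log ((Y + 1 : ℕ) : ℝ)) ^ 2 ≤ 16 * ((k : ℝ) + 1) ^ 2 / t ^ 2 := by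
      have : 1 / Real.log ((Y + 1 : ℕ) : ℝ) ≤ 1 / L := one_div_le_one_div_of_le hLp hlogY
      have h0 : 0 ≤ 1 / Real.log ((Y + 1 : ℕ) : ℝ) := by
        have := hLp.le.trans hlogY
        positivity
      calc (1 / Real.log ((Y + 1 : ℕ) : ℝ)) ^ 2 ≤ (1 / L) ^ 2 := pow_le_pow_left₀ h0 this 2
        _ = _ := by
          rw [hL]
          field_simp
          ring
    have b5 : (Y : ℝ) ^ k * (Y : ℝ) ^ k ≤ s := by
      calc (Y : ℝ) ^ k * (Y : ℝ) ^ k ≤ Real.exp L ^ k * Real.exp L ^ k := by gcongr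
        _ = Real.exp (((k : ℝ) + k) * L) := by
          rw [← pow_add, ← Real.exp_nat_mul]
          push_cast
          rfl
        _ ≤ s := by
          rw [hs]
          apply Real.exp_le_exp.2
          rw [hL, mul_div_assoc', div_le_iff₀ hk0]
          nlinarith
    have b6 : (Y : ℝ) ≤ s := by
      refine hYle.trans ?_
      rw [hs]
      apply Real.exp_le_exp.2
      rw [hL, div_le_iff₀ hk0]
      have : (0 : ℝ) ≤ k := Nat.cast_nonneg k
      nlinarith
    have b7 : (N : ℝ) * ∏ p ∈ Nat.primesBelow (Y + 1), (1 - gg h p) ≤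
        16 * ((k : ℝ) + 1) ^ 2 * (N / t ^ 2 * GG Y h) := by
      calc (N : ℝ) * ∏ p ∈ Nat.primesBelow (Y + 1), (1 - gg h p)
          ≤ N * (16 * ((k : ℝ) + 1) ^ 2 / t ^ 2 * GG Y h) := by
            apply mul_le_mul_of_nonneg_left _ hN0.le
            exact b3.trans (mul_le_mul_of_nonneg_right b4 (by linarith))
        _ = _ := by ring
    calc ((PP N h).card : ℝ) ≤ Y + (2 * (N * ∏ p ∈ Nat.primesBelow (Y + 1), (1 - gg h p)) +
          (Y : ℝ) ^ k * (Y : ℝ) ^ k) := b1.trans (add_le_add le_rfl b2)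
      _ ≤ 16 * (N / t ^ 2 * GG Y h) + 32 * ((k : ℝ) + 1) ^ 2 * (N / t ^ 2 * GG Y h) := by
          linarith
      _ = _ := by ring
  · have b1 : (PP N h).card ≤ 1 := by
      rw [card_le_one]
      have : ∀ a ∈ PP N h, a = 2 := by
        intro a ha
        obtain ⟨_, ha1, ha2⟩ := mem_filter.1 ha
        rcases ha1.eq_two_or_odd with h3 | h3
        · exact h3
        · rcases ha2.eq_two_or_odd with h4 | h4
          · have := ha1.two_le
            omega
          · omega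
      intro a ha b hb
      rw [this a ha, this b hb]
    have b2 : ((PP N h).card : ℝ) ≤ 1 := by exact_mod_cast b1
    calc ((PP N h).card : ℝ) ≤ s := b2.trans hs1
      _ ≤ 16 * (N / t ^ 2 * GG Y h) := by linarith
      _ ≤ (16 + 32 * ((k : ℝ) + 1) ^ 2) * (N / t ^ 2 * GG Y h) := by
          apply mul_le_mul_of_nonneg_right (by linarith)
          linarith
      _ = _ := by ring

/-- the average of the local correction -/
theorem GG_sum (Y H : ℕ) : ∑ h ∈ Ioc 0 H, GG Y h ≤ Real.exp 1 * H := by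
  have e1 : ∀ h ∈ Ioc 0 H, GG Y h = ∑ T ∈ (Nat.primesBelow (Y + 1)).powerset,
      (∏ p ∈ T, (1 / ((p : ℝ) - 1))) * (if (∏ p ∈ T, p) ∣ h then 1 else 0) := by
    intro h _
    unfold GG
    have e2 : ∀ p ∈ Nat.primesBelow (Y + 1),
        (if p ∣ h then (1 - 1 / (p : ℝ))⁻¹ else 1) =
        1 + (if p ∣ h then 1 / ((p : ℝ) - 1) else 0) := by
      intro p hp
      have hpp := Nat.prime_of_mem_primesBelow hp
      have h2 : (2 : ℝ) ≤ p := by exact_mod_cast hpp.two_le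
      split_ifs
      · have h3 : (p : ℝ) - 1 ≠ 0 := by linarith
        have h4 : (p : ℝ) ≠ 0 := by linarith
        field_simp
        ring
      · ring
    rw [prod_congr rfl e2, prod_one_add]
    refine sum_congr rfl (fun T hT => ?_)
    have hpr : ∀ p ∈ T, p.Prime := fun p hp =>
      Nat.prime_of_mem_primesBelow (mem_powerset.1 hT hp)
    by_cases hd : (∏ p ∈ T, p) ∣ h
    · rw [if_pos hd, mul_one]
      exact prod_congr rfl (fun p hp => by
        rw [if_pos ((dvd_prod_of_mem _ hp).trans hd)])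
    · rw [if_neg hd, mul_zero]
      have : ∃ p ∈ T, ¬ p ∣ h := by
        by_contra hcon
        push Not at hcon
        apply hd
        exact prod_primes_dvd h (fun p hp => (hpr p hp).prime) hcon
      obtain ⟨p, hp, hp'⟩ := this
      exact prod_eq_zero hp (by rw [if_neg hp'])
  rw [sum_congr rfl e1, sum_comm]
  have e3 : ∀ T ∈ (Nat.primesBelow (Y + 1)).powerset,
      ∑ h ∈ Ioc 0 H, (∏ p ∈ T, (1 / ((p : ℝ) - 1))) * (if (∏ p ∈ T, p) ∣ h then (1 : ℝ) else 0) ≤
      H * ∏ p ∈ T, (1 / ((p : ℝ) * (p - 1))) := by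
    intro T hT
    have hpr : ∀ p ∈ T, p.Prime := fun p hp =>
      Nat.prime_of_mem_primesBelow (mem_powerset.1 hT hp)
    rw [← mul_sum, sum_boole]
    have hc : (((Ioc 0 H).filter (fun h => (∏ p ∈ T, p) ∣ h)).card : ℝ) ≤
        H / (∏ p ∈ T, (p : ℝ)) := by
      rw [Nat.Ioc_filter_dvd_card_eq_div]
      have := Nat.cast_div_le (α := ℝ) (m := H) (n := ∏ p ∈ T, p)
      push_cast at this
      exact this
    have h0 : 0 ≤ ∏ p ∈ T, (1 / ((p : ℝ) - 1)) := prod_nonneg (fun p hp => by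
      have h2 : (2 : ℝ) ≤ p := by exact_mod_cast (hpr p hp).two_le
      have : 0 ≤ (p : ℝ) - 1 := by linarith
      positivity)
    refine (mul_le_mul_of_nonneg_left hc h0).trans (le_of_eq ?_)
    have e4 : ∏ p ∈ T, (1 / ((p : ℝ) * (p - 1))) =
        (∏ p ∈ T, (1 / ((p : ℝ) - 1))) * (∏ p ∈ T, (p : ℝ))⁻¹ := by
      rw [← prod_inv_distrib, ← prod_mul_distrib]
      refine prod_congr rfl (fun p _ => ?_)
      rw [one_div, one_div, mul_inv]
      ring
    rw [e4]
    ring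
  refine (sum_le_sum e3).trans ?_
  rw [← mul_sum, ← prod_one_add, mul_comm]
  apply mul_le_mul_of_nonneg_right _ (Nat.cast_nonneg _)
  have e5 : ∏ p ∈ Nat.primesBelow (Y + 1), (1 + 1 / ((p : ℝ) * (p - 1))) ≤
      ∏ p ∈ Nat.primesBelow (Y + 1), Real.exp (1 / ((p : ℝ) * (p - 1))) := by
    refine prod_le_prod (fun p hp => ?_) (fun p _ => ?_)
    · have h2 : (2 : ℝ) ≤ p := by
        exact_mod_cast (Nat.prime_of_mem_primesBelow hp).two_le
      have : 0 ≤ (p : ℝ) - 1 := by linarith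
      positivity
    · rw [add_comm]
      exact Real.add_one_le_exp _
  refine e5.trans ?_
  rw [← Real.exp_sum]
  apply Real.exp_le_exp.2
  have e6 : ∑ p ∈ Nat.primesBelow (Y + 1), 1 / ((p : ℝ) * (p - 1)) ≤
      ∑ p ∈ Ico 2 (Y + 2), 1 / ((p : ℝ) * (p - 1)) := by
    apply sum_le_sum_of_subset_of_nonneg
    · intro p hp
      have h1 := (Nat.prime_of_mem_primesBelow hp).two_le
      have h2 := Nat.lt_of_mem_primesBelow hp
      exact mem_Ico.2 ⟨h1, by omega⟩
    · intro p hp _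
      have h2 : (2 : ℝ) ≤ p := by exact_mod_cast (mem_Ico.1 hp).1
      have : 0 ≤ (p : ℝ) - 1 := by linarith
      positivity
  refine e6.trans ?_
  have e7 : ∀ M : ℕ, ∑ p ∈ Ico 2 (M + 2), 1 / ((p : ℝ) * (p - 1)) = 1 - 1 / ((M : ℝ) + 1) := by
    intro M
    induction M with
    | zero => simp
    | succ M ih =>
      rw [show M + 1 + 2 = (M + 2) + 1 from rfl, sum_Ico_succ_top (by omega), ih]
      push_cast
      have h1 : (M : ℝ) + 1 ≠ 0 := by positivity
      have h2 : (M : ℝ) + 2 ≠ 0 := by positivity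
      have h3 : (M : ℝ) + 1 + 1 ≠ 0 := by positivity
      have h4 : (M : ℝ) + 2 - 1 ≠ 0 := by
        have : (M : ℝ) + 2 - 1 = M + 1 := by ring
        rw [this]
        exact h1
      field_simp
      ring
  rw [e7]
  have : 0 ≤ 1 / ((Y : ℝ) + 1) := by positivity
  linarith

/-- **pairs of primes at distance at most `H`** -/
theorem pair_sum : ∃ C : ℝ, 0 < C ∧ ∀ N H : ℕ, 2 ≤ N →
    ∑ h ∈ Ioc 0 H, ((PP N h).card : ℝ) ≤ C * H * (N / Real.log N ^ 2) := by
  obtain ⟨A, Y, hA, h⟩ := pair_count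
  refine ⟨A * Real.exp 1, by positivity, ?_⟩
  intro N H hN
  have h0 : 0 ≤ A * (N / Real.log N ^ 2) := by positivity
  calc ∑ h ∈ Ioc 0 H, ((PP N h).card : ℝ)
      ≤ ∑ h ∈ Ioc 0 H, A * (N / Real.log N ^ 2) * GG (Y N) h :=
        sum_le_sum (fun i hi => h N i hN (mem_Ioc.1 hi).1)
    _ = A * (N / Real.log N ^ 2) * ∑ h ∈ Ioc 0 H, GG (Y N) h := (mul_sum _ _ _).symm
    _ ≤ A * (N / Real.log N ^ 2) * (Real.exp 1 * H) :=
        mul_le_mul_of_nonneg_left (GG_sum _ _) h0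
    _ = _ := by ring

end Pool.Agent.Lib_helper5.RUN
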